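import Mathlib
import Pool.Agent.Y359.PE.NoPop

/-!
# The entropy of a sum of an arbitrary variable and an independent variable which is mostly zero
-/

set_option autoImplicit false

namespace Pool.Agent.Q247.OS

open Finset Pool.Agent.Y359.PE
open scoped Classical

variable {α β M : Type*} [AddCommGroup M]

/-- a mixture of two codes -/
lemma cell_mix (G : Finset α) (G' : Finset β) (hG : G.Nonempty) (hG' : G'.Nonempty)
    (a : α → M) (b : β → M) {ρ θ : ℝ} (hρ : 0 < ρ) (hρ1 : ρ < 1)
    (h2 : (nz G' b : ℝ) ≤ θ * G'.card) :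
    h G' b + (1 - θ) * h G a + Real.log (1 - ρ) + θ * Real.log ρ ≤
      h (G ×ˢ G') (fun x => a x.1 + b x.2) := by
  have hN : (0 : ℝ) < G.card := by exact_mod_cast card_pos.2 hG
  have hN' : (0 : ℝ) < G'.card := by exact_mod_cast card_pos.2 hG'
  have hρ1' : 0 < 1 - ρ := by linarith
  -- the weights
  let w : α → β → ℝ := fun g g' =>
    if b g' = 0 then (1 - ρ) / ((fc G a g : ℝ) * fc G' b g') else ρ / ((G.card : ℝ) * fc G' b g')
  have hw0 : ∀ g ∈ G, ∀ g' ∈ G', 0 < w g g' := by
    intro g hg g' hg'
    have h3 := fc_posR (f := a) hg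
    have h4 := fc_posR (f := b) hg'
    simp only [w]
    split_ifs
    · positivity
    · positivity
  have hrow : ∀ t : M, ∀ g ∈ G, (∑ g' ∈ G', if a g + b g' = t then w g g' else 0) ≤
      (if a g = t then (1 - ρ) * (1 / (fc G a g : ℝ)) else 0) + ρ / G.card := by
    intro t g hg
    have h3 := fc_posR (f := a) hg
    rw [← sum_filter]
    have e1 := sum_inv_le G' b (G'.filter (fun g' => a g + b g' = t)) (filter_subset _ _) (by
      intro u hu v hv
      rw [mem_filter] at hu hv
      exact add_left_cancel (hu.2.trans hv.2.symm))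
    have gen : ∀ c : ℝ, 0 ≤ c → (∀ g' ∈ G'.filter (fun g' => a g + b g' = t),
        w g g' = c * (1 / (fc G' b g' : ℝ))) →
        ∑ g' ∈ G'.filter (fun g' => a g + b g' = t), w g g' ≤ c := by
      intro c hc hq
      rw [sum_congr rfl hq, ← mul_sum]
      nlinarith only [e1, hc]
    have hρN : 0 ≤ ρ / G.card := by positivity
    by_cases c1 : a g = t
    · rw [if_pos c1]
      have := gen ((1 - ρ) * (1 / (fc G a g : ℝ))) (by positivity) (by
        intro g' hg'
        have hb : b g' = 0 := by
          have h5 := (mem_filter.1 hg').2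
          rw [c1] at h5
          exact add_eq_left.1 h5
        simp only [w]
        rw [if_pos hb]
        field_simp)
      linarith
    · rw [if_neg c1, zero_add]
      refine gen _ hρN ?_
      intro g' hg'
      have hb : b g' ≠ 0 := by
        intro h5
        have h6 := (mem_filter.1 hg').2
        rw [h5, add_zero] at h6
        exact c1 h6
      simp only [w]
      rw [if_neg hb]
      field_simp
  have hfib : ∀ t : M, (∑ g ∈ G, ∑ g' ∈ G', if a g + b g' = t then w g g' else 0) ≤ 1 := by
    intro t
    refine (sum_le_sum (hrow t)).trans ?_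
    rw [sum_add_distrib, sum_const, nsmul_eq_mul]
    have s1 : ∑ g ∈ G, (if a g = t then (1 - ρ) * (1 / (fc G a g : ℝ)) else 0) ≤ 1 - ρ := by
      rw [← sum_filter, ← mul_sum]
      have e1 := sum_inv_le G a (G.filter fun g => a g = t) (filter_subset _ _) (by
        intro u hu v hv
        exact (mem_filter.1 hu).2.trans (mem_filter.1 hv).2.symm)
      nlinarith only [e1, hρ1']
    have s2 : (G.card : ℝ) * (ρ / G.card) = ρ := by field_simp
    linarith
  have key := h_ge_w (G ×ˢ G') (fun x => a x.1 + b x.2)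
    (fun x => w x.1 x.2) (fun x hx => hw0 _ (mem_product.1 hx).1 _ (mem_product.1 hx).2)
    (fun x hx => by
      rw [sum_cl_prod G G' (fun g g' => a g + b g') _ (fun g g' => w g g') x rfl]
      exact hfib _)
  refine le_trans ?_ key
  have hcard : (((G ×ˢ G').card : ℕ) : ℝ) = (G.card : ℝ) * G'.card := by
    rw [card_product]
    push_cast
    rfl
  rw [hcard, le_div_iff₀ (by positivity), sum_product]
  have hlρ1 : Real.log (1 - ρ) ≤ 0 := Real.log_nonpos hρ1'.le (by linarith)
  have hlρ : Real.log ρ ≤ 0 := Real.log_nonpos hρ.le hρ1.le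
  have hlow : ∀ g ∈ G, ∀ g' ∈ G', (Real.log G'.card - Real.log (fc G' b g')) +
      Real.log (1 - ρ) + (if b g' ≠ 0 then (1 : ℝ) else 0) * Real.log ρ +
      (1 - (if b g' ≠ 0 then (1 : ℝ) else 0)) * (Real.log G.card - Real.log (fc G a g)) ≤
      Real.log ((G.card : ℝ) * G'.card) + Real.log (w g g') := by
    intro g hg g' hg'
    have h3 := fc_posR (f := a) hg
    have h4 := fc_posR (f := b) hg'
    rw [Real.log_mul hN.ne' hN'.ne']
    by_cases c : b g' = 0
    · rw [if_neg (not_not.2 c)]
      simp only [w]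
      rw [if_pos c, Real.log_div hρ1'.ne' (by positivity), Real.log_mul h3.ne' h4.ne']
      linarith
    · rw [if_pos c]
      simp only [w]
      rw [if_neg c, Real.log_div hρ.ne' (by positivity), Real.log_mul hN.ne' h4.ne']
      linarith
  refine le_trans ?_ (sum_le_sum fun g hg => sum_le_sum fun g' hg' => hlow g hg g' hg')
  have hA : ∑ g ∈ G, (Real.log G.card - Real.log (fc G a g)) = G.card * h G a := by
    unfold h
    rw [mul_div_cancel₀ _ hN.ne']
  have hB : ∑ g' ∈ G', (Real.log G'.card - Real.log (fc G' b g')) = G'.card * h G' b := by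
    unfold h
    rw [mul_div_cancel₀ _ hN'.ne']
  have hv : ∑ g' ∈ G', (if b g' ≠ 0 then (1 : ℝ) else 0) = nz G' b := by
    rw [← sum_filter, sum_const, nsmul_eq_mul, mul_one]
    rfl
  have inner : ∀ g ∈ G, ∑ g' ∈ G', ((Real.log G'.card - Real.log (fc G' b g')) +
      Real.log (1 - ρ) + (if b g' ≠ 0 then (1 : ℝ) else 0) * Real.log ρ +
      (1 - (if b g' ≠ 0 then (1 : ℝ) else 0)) * (Real.log G.card - Real.log (fc G a g))) =
      (G'.card * h G' b + G'.card * Real.log (1 - ρ) + nz G' b * Real.log ρ) +
        (G'.card - nz G' b) * (Real.log G.card - Real.log (fc G a g)) := by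
    intro g _
    rw [sum_add_distrib, sum_add_distrib, sum_add_distrib, sum_const, nsmul_eq_mul, hB,
      ← sum_mul, hv, ← sum_mul, sum_sub_distrib, hv, sum_const, nsmul_eq_mul, mul_one]
  rw [sum_congr rfl inner, sum_add_distrib, sum_const, nsmul_eq_mul, ← mul_sum, hA]
  have hh := h_nonneg G a
  have e1 : (nz G' b : ℝ) * h G a ≤ θ * G'.card * h G a := mul_le_mul_of_nonneg_right h2 hh
  have e2 : θ * G'.card * Real.log ρ ≤ nz G' b * Real.log ρ :=
    mul_le_mul_of_nonpos_right h2 hlρ
  have e3 := mul_le_mul_of_nonneg_left e1 hN.le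
  have e4 := mul_le_mul_of_nonneg_left e2 hN.le
  nlinarith only [e3, e4]

/-- numerical bounds -/
lemma num_u {u s : ℝ} (hu : 0 ≤ u) (hs : s = Real.exp (-(u / 2))) :
    u * s ^ 2 + 9 / 8 * (u * s) + u ^ 2 * s ≤ 4 := by
  have he := Real.exp_one_gt_d9
  have hs0 : 0 < s := by rw [hs]; exact Real.exp_pos _
  have a1 : u * s ^ 2 ≤ 0.37 := by
    have h1 := Real.add_one_le_exp (u - 1)
    have h2 : Real.exp (u - 1) * (s ^ 2 * Real.exp 1) = 1 := by
      rw [hs, ← Real.exp_nat_mul, ← Real.exp_add, ← Real.exp_add]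
      rw [show u - 1 + ((2 : ℕ) * (-(u / 2)) + 1) = 0 by push_cast; ring, Real.exp_zero]
    have h3 : u * (s ^ 2 * Real.exp 1) ≤ 1 :=
      (mul_le_mul_of_nonneg_right (by linarith) (by positivity)).trans h2.le
    have h4 : 0 ≤ u * s ^ 2 := by positivity
    nlinarith only [h3, h4, he]
  have a2 : u * s ≤ 0.74 := by
    have h1 := Real.add_one_le_exp (u / 2 - 1)
    have h2 : Real.exp (u / 2 - 1) * (s * Real.exp 1) = 1 := by
      rw [hs, ← Real.exp_add, ← Real.exp_add]
      rw [show u / 2 - 1 + (-(u / 2) + 1) = 0 by ring, Real.exp_zero]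
    have h3 : u / 2 * (s * Real.exp 1) ≤ 1 :=
      (mul_le_mul_of_nonneg_right (by linarith) (by positivity)).trans h2.le
    have h4 : 0 ≤ u * s := by positivity
    nlinarith only [h3, h4, he]
  have a3 : u ^ 2 * s ≤ 2.2 := by
    have h1 := Real.add_one_le_exp (u / 4 - 1)
    have h0 : u / 4 ≤ Real.exp (u / 4 - 1) := by linarith
    have h2 : Real.exp (u / 4 - 1) ^ 2 * (s * Real.exp 1 ^ 2) = 1 := by
      rw [hs, ← Real.exp_nat_mul, ← Real.exp_nat_mul, ← Real.exp_add, ← Real.exp_add]
      rw [show (2 : ℕ) * (u / 4 - 1) + (-(u / 2) + (2 : ℕ) * (1 : ℝ)) = 0 by push_cast; ring,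
        Real.exp_zero]
    have h3 : (u / 4) ^ 2 * (s * Real.exp 1 ^ 2) ≤ 1 :=
      (mul_le_mul_of_nonneg_right (pow_le_pow_left₀ (by positivity) h0 2)
        (by positivity)).trans h2.le
    have h4 : 0 ≤ u ^ 2 * s := by positivity
    have h5 : (7.38 : ℝ) ≤ Real.exp 1 ^ 2 := by nlinarith only [he]
    nlinarith only [h3, h4, h5]
  linarith

/-- **One variable is mostly zero, the other one is arbitrary.** -/
lemma cell_arb (G : Finset α) (G' : Finset β) (hG : G.Nonempty) (hG' : G'.Nonempty)
    (a : α → M) (b : β → M) {θ : ℝ} (hθ : 0 < θ) (hθ1 : θ ≤ 1 / 9)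
    (h2 : (nz G' b : ℝ) ≤ θ * G'.card) :
    (1 - 4 / Real.log (1 / θ)) * (h G a + h G' b) ≤ h (G ×ˢ G') (fun x => a x.1 + b x.2) := by
  have hN : (0 : ℝ) < G.card := by exact_mod_cast card_pos.2 hG
  have hN' : (0 : ℝ) < G'.card := by exact_mod_cast card_pos.2 hG'
  set u : ℝ := Real.log (1 / θ) with hu
  have hu0 : 0 < u := by
    refine Real.log_pos ?_
    rw [lt_div_iff₀ hθ]
    linarith
  set s : ℝ := Real.sqrt θ with hs
  have hs0 : 0 < s := Real.sqrt_pos.2 hθ
  have hss : s ^ 2 = θ := Real.sq_sqrt hθ.le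
  have hs3 : s ≤ 1 / 3 := by
    rw [hs, Real.sqrt_le_left (by norm_num)]
    norm_num
    linarith
  have hha := h_nonneg G a
  have hhb := h_nonneg G' b
  have hlogs : Real.log (1 / s) = u / 2 := by
    rw [one_div, Real.log_inv, hu, one_div, Real.log_inv, hs, Real.log_sqrt hθ.le]
    ring
  by_cases hc : ∃ e : M, ((G.filter fun g => a g ≠ e).card : ℝ) ≤ s * G.card
  · obtain ⟨e, he⟩ := hc
    have h1 : (nz G (fun g => a g - e) : ℝ) ≤ s * G.card := by
      have : nz G (fun g => a g - e) = (G.filter fun g => a g ≠ e).card := by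
        unfold nz
        congr 1
        refine filter_congr fun g _ => ?_
        rw [not_iff_not]
        exact sub_eq_zero
      rw [this]
      exact he
    have h3 : (nz G' b : ℝ) ≤ s * G'.card := by
      refine h2.trans ?_
      refine mul_le_mul_of_nonneg_right ?_ hN'.le
      nlinarith only [hss, hs0, hs3]
    have main := cell_main G G' hG hG' (fun g => a g - e) b hs0 hs3 h1 h3
    have e1 : h G (fun g => a g - e) = h G a := h_congr fun x _ y _ => by
      exact ⟨fun hh => sub_left_injective hh, fun hh => by rw [hh]⟩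
    have e2 : h (G ×ˢ G') (fun x => a x.1 - e + b x.2) = h (G ×ˢ G') (fun x => a x.1 + b x.2) :=
      h_congr fun x _ y _ => by
        constructor
        · intro hh
          have : a x.1 + b x.2 - e = a y.1 + b y.2 - e := by
            rw [add_sub_right_comm, add_sub_right_comm]
            exact hh
          exact sub_left_injective this
        · intro hh
          rw [← add_sub_right_comm, ← add_sub_right_comm, hh]
    rw [e1, e2, hlogs] at main
    have e3 : 2 / (u / 2) = 4 / u := by
      field_simp
      norm_num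
    rwa [e3] at main
  · push Not at hc
    have hsa : s ≤ h G a := by
      unfold h
      rw [le_div_iff₀ hN]
      have h3 : ∀ g ∈ G, s ≤ Real.log G.card - Real.log (fc G a g) := by
        intro g hg
        have h4 := hc (a g)
        have h5 : ((G.filter fun x => a x ≠ a g).card : ℝ) + fc G a g = G.card := by
          have := card_filter_add_card_filter_not (s := G) (fun x => a x = a g)
          have h6 : fc G a g = (G.filter fun x => a x = a g).card := rfl
          rw [h6]
          exact_mod_cast (by omega)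
        have h6 := fc_posR (f := a) hg
        have h7 : (fc G a g : ℝ) ≤ (1 - s) * G.card := by linarith
        have h8 : 0 < 1 - s := by linarith
        have h9 := Real.log_le_log h6 h7
        rw [Real.log_mul h8.ne' hN.ne'] at h9
        have h10 := Real.log_le_sub_one_of_pos h8
        linarith
      have h4 := sum_le_sum h3
      rw [sum_const, nsmul_eq_mul] at h4
      linarith
    have main := cell_mix G G' hG hG' a b hθ (show θ < 1 by linarith) h2
    refine le_trans ?_ main
    have hl : Real.log θ = -u := by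
      rw [hu, one_div, Real.log_inv]
      ring
    have hl1 : -(9 / 8 * θ) ≤ Real.log (1 - θ) := by
      have h8 : 0 < 1 - θ := by linarith
      have h9 := Real.one_sub_inv_le_log_of_pos h8
      have h10 : (1 - θ)⁻¹ ≤ 1 + 9 / 8 * θ := by
        rw [inv_le_iff_one_le_mul₀ h8]
        nlinarith only [hθ, hθ1]
      linarith
    have hsexp : s = Real.exp (-(u / 2)) := by
      rw [← hlogs, one_div, Real.log_inv, neg_neg, Real.exp_log hs0]
    have hn := num_u hu0.le hsexp
    have h4u : 0 < 4 / u := by positivity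
    -- the loss
    have k1 : θ * h G a + 9 / 8 * θ + θ * u ≤ 4 / u * h G a := by
      have k0 : 4 / u * h G a = 4 * h G a / u := by ring
      rw [k0, le_div_iff₀ hu0]
      have k2 : θ ≤ s * h G a := by
        rw [← hss]
        nlinarith only [hsa, hs0]
      have k3 : 9 / 8 * θ * u ≤ 9 / 8 * (s * h G a) * u := by
        have := mul_le_mul_of_nonneg_right k2 hu0.le
        linarith
      have k4 : θ * u * u ≤ (s * h G a) * u * u := by
        have := mul_le_mul_of_nonneg_right (mul_le_mul_of_nonneg_right k2 hu0.le) hu0.le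
        linarith
      have k5 := mul_le_mul_of_nonneg_right hn hha
      have k6 : θ * h G a * u = u * s ^ 2 * h G a := by
        rw [hss]
        ring
      nlinarith only [k3, k4, k5, k6]
    have k7 : 0 ≤ 4 / u * h G' b := by positivity
    rw [hl]
    nlinarith only [k1, k7, hl1]

end Pool.Agent.Q247.OS
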