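import Mathlib
import Pool.Agent.Q247.OS.Step
import Pool.Agent.Q247.KP.App

/-!
# Products of an arbitrary set with a set with unpopular primes
-/

set_option autoImplicit false

namespace Pool.Agent.Q247.OS

open Finset Pool.Agent.Y359.PE Pool.Agent.Q247.KP Polynomial
open scoped Classical Pointwise

lemma image_mul_eq' (A B : Finset ℤ) : ((A ×ˢ B).image fun s => s.1 * s.2) = A * B := by
  ext x
  rw [mem_image, mem_mul]
  constructor
  · rintro ⟨s, hs, rfl⟩
    exact ⟨s.1, (mem_product.1 hs).1, s.2, (mem_product.1 hs).2, rfl⟩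
  · rintro ⟨a, ha, b, hb, rfl⟩
    exact ⟨(a, b), mem_product.2 ⟨ha, hb⟩, rfl⟩

/-- **One-sided product inequality.** -/
theorem oneSided (L : ℝ) (hL : 1 < L) (A B : Finset ℤ) (hA : A.Nonempty) (hB : B.Nonempty)
    (h0 : (0 : ℤ) ∉ A) (h0' : (0 : ℤ) ∉ B) (P : Finset ℕ) (hP : ∀ p ∈ P, p.Prime)
    (hpop : ∀ p : ℕ, p.Prime → p ∉ P →
      ∃ e : ℕ, L * ((B.filter fun a => fa a p ≠ e).card : ℝ) ≤ B.card) :
    ((A.card : ℝ) * B.card) ^ (1 - 9 / Real.log L) ≤
      4 * (B.image (part P)).card * (A * B).card := by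
  have hl0 : 0 < Real.log L := Real.log_pos hL
  have hN1 : (1 : ℝ) ≤ A.card := by exact_mod_cast card_pos.2 hA
  have hN1' : (1 : ℝ) ≤ B.card := by exact_mod_cast card_pos.2 hB
  have hN : (1 : ℝ) ≤ (A.card : ℝ) * B.card := by nlinarith
  have hP1 : (1 : ℝ) ≤ (A * B).card := by exact_mod_cast card_pos.2 (hA.mul hB)
  have hD1 : (1 : ℝ) ≤ (B.image (part P)).card := by exact_mod_cast card_pos.2 (hB.image _)
  set D : ℝ := ((B.image (part P)).card : ℝ) with hD
  rcases le_or_gt (1 : ℝ) (9 / Real.log L) with hc | hc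
  · have h1 : ((A.card : ℝ) * B.card) ^ (1 - 9 / Real.log L) ≤ 1 :=
      Real.rpow_le_one_of_one_le_of_nonpos hN (by linarith)
    have h2 : 1 ≤ D * (A * B).card := by nlinarith
    nlinarith
  · rw [div_lt_iff₀ hl0, one_mul] at hc
    choose! e he using hpop
    set T := pr B \ P with hT
    have main := prod_arb A B hA hB h0 h0' T e hL hc.le (fun p hp =>
      he p (prime_of_mem_pr (mem_sdiff.1 hp).1) (mem_sdiff.1 hp).2)
    rw [image_mul_eq'] at main
    have hhB := h_ge_short B B hB (Y359.PE.mk T (X e)) (Subset.refl _) (F := 2 * D) (fun x _ => by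
      rw [hD]
      have h4 := fc_le_part B h0' P T (Subset.refl _) (part P)
        (fun a _ b _ hab p hp => fa_eq_of_part hP hab hp) e x
      exact_mod_cast h4)
    rw [div_self (by linarith), one_mul] at hhB
    set HB := h B (Y359.PE.mk T (X e)) with hHB
    set E := 1 - 9 / Real.log L with hEd
    have hE0 : 0 ≤ E := by
      have : 9 / Real.log L ≤ 1 := by
        rw [div_le_one hl0]
        exact hc.le
      linarith
    have hE1 : E ≤ 1 := by
      have : 0 ≤ 9 / Real.log L := by positivity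
      linarith
    have hlD : Real.log (4 * D * (A * B).card) = Real.log 2 + Real.log (2 * D) +
        Real.log (A * B).card := by
      have e1 : 4 * D * ((A * B).card : ℝ) = 2 * (2 * D) * (A * B).card := by ring
      rw [e1, Real.log_mul (by positivity) (by positivity),
        Real.log_mul (by norm_num) (by positivity)]
    have hl1 : 0 ≤ Real.log (2 * D) := Real.log_nonneg (by linarith)
    have hl2 : 0 ≤ Real.log 2 := Real.log_nonneg (by norm_num)
    have s3 := mul_le_mul_of_nonneg_left (show Real.log A.card + Real.log B.card -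
      (Real.log 2 + Real.log (2 * D)) ≤ Real.log A.card - Real.log 2 + HB by linarith) hE0
    have s4 : E * (Real.log 2 + Real.log (2 * D)) ≤ Real.log 2 + Real.log (2 * D) :=
      mul_le_of_le_one_left (by linarith) hE1
    have hN0 : (0 : ℝ) < (A.card : ℝ) * B.card := by linarith
    rw [← Real.log_le_log_iff (Real.rpow_pos_of_pos hN0 _) (by positivity), Real.log_rpow hN0, hlD,
      Real.log_mul (by positivity) (by positivity)]
    nlinarith

/-- a set in which every large prime and every high power of a small prime divides few elements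
has a large subset with unpopular primes -/
lemma reduce1 {Λ : ℝ} (hΛ : 1 < Λ) (m J : ℕ) (B : Finset ℤ) (hB : B.Nonempty)
    (hbig : ∀ p : ℕ, p.Prime → m < p →
        (4 * Λ) * ((B.filter fun a : ℤ => (p : ℤ) ∣ a).card : ℝ) ≤ B.card)
    (hsmall : ∀ p : ℕ, p.Prime → p ≤ m →
        4 * (m : ℝ) * ((B.filter fun a : ℤ => ((p ^ J : ℕ) : ℤ) ∣ a).card : ℝ) ≤ B.card) :
    ∃ B₁ : Finset ℤ, B₁ ⊆ B ∧ B₁.Nonempty ∧ (B.card : ℝ) / 2 ≤ B₁.card ∧ (0 : ℤ) ∉ B₁ ∧
      (∀ p : ℕ, p.Prime → p ∉ (range (m + 1)).filter Nat.Prime → ∃ e : ℕ,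
        Λ * ((B₁.filter fun a => fa a p ≠ e).card : ℝ) ≤ B₁.card) ∧
      ((B₁.image (part ((range (m + 1)).filter Nat.Prime))).card : ℝ) ≤
        ((J : ℝ) + 1) ^ ((range (m + 1)).filter Nat.Prime).card := by
  set P : Finset ℕ := (range (m + 1)).filter Nat.Prime with hP
  have hPc : (P.card : ℝ) ≤ m := by
    have h10 : P ⊆ (range (m + 1)).erase 0 := by
      intro p hp
      rw [mem_erase]
      exact ⟨(mem_filter.1 hp).2.ne_zero, (mem_filter.1 hp).1⟩
    have h11 := card_le_card h10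
    rw [card_erase_of_mem (mem_range.2 (by omega)), card_range] at h11
    exact_mod_cast h11
  have hPp : ∀ p ∈ P, p.Prime := fun p hp => (mem_filter.1 hp).2
  have hPm : ∀ p ∈ P, p ≤ m := fun p hp => by
    have := mem_range.1 (mem_filter.1 hp).1
    omega
  set R : Finset ℤ := (P.biUnion fun p =>
    B.filter fun a : ℤ => ((p ^ J : ℕ) : ℤ) ∣ a) ∪ B.filter fun a : ℤ => a = 0 with hR
  have hN1 : (1 : ℝ) ≤ B.card := by exact_mod_cast card_pos.2 hB
  have hz : ((B.filter fun a : ℤ => a = 0).card : ℝ) ≤ B.card / 4 := by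
    obtain ⟨p, hp, hpp⟩ := Nat.exists_infinite_primes (m + 1)
    have h1 := hbig p hpp (by omega)
    have h2 : ((B.filter fun a : ℤ => a = 0).card : ℝ) ≤
        ((B.filter fun a : ℤ => (p : ℤ) ∣ a).card : ℝ) := by
      have : (B.filter fun a : ℤ => a = 0) ⊆ B.filter fun a : ℤ => (p : ℤ) ∣ a := by
        intro a ha
        rw [mem_filter] at ha ⊢
        exact ⟨ha.1, ha.2 ▸ dvd_zero _⟩
      exact_mod_cast card_le_card this
    have h4 : (0 : ℝ) ≤ ((B.filter fun a : ℤ => (p : ℤ) ∣ a).card : ℝ) := by positivity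
    nlinarith
  have hRc : (R.card : ℝ) ≤ B.card / 2 := by
    have h1 : (R.card : ℝ) ≤ (∑ p ∈ P, ((B.filter
        fun a : ℤ => ((p ^ J : ℕ) : ℤ) ∣ a).card : ℝ)) +
        ((B.filter fun a : ℤ => a = 0).card : ℝ) := by
      have h2 : R.card ≤ (∑ p ∈ P, (B.filter
        fun a : ℤ => ((p ^ J : ℕ) : ℤ) ∣ a).card) +
        (B.filter fun a : ℤ => a = 0).card := by
        refine (card_union_le _ _).trans ?_
        have := card_biUnion_le (s := P) (t := fun p =>
          B.filter fun a : ℤ => ((p ^ J : ℕ) : ℤ) ∣ a)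
        omega
      exact_mod_cast h2
    have h5 : (∑ p ∈ P, ((B.filter
        fun a : ℤ => ((p ^ J : ℕ) : ℤ) ∣ a).card : ℝ)) ≤ B.card / 4 := by
      rcases Nat.eq_zero_or_pos m with hm | hm
      · have : P = ∅ := by
          rw [← card_eq_zero]
          have : (P.card : ℝ) ≤ 0 := by
            rw [hm] at hPc
            simpa using hPc
          exact_mod_cast le_antisymm this (by positivity)
        rw [this, sum_empty]
        positivity
      have hm0 : (0 : ℝ) < m := by exact_mod_cast hm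
      have h6 : ∀ p ∈ P, ((B.filter fun a : ℤ => ((p ^ J : ℕ) : ℤ) ∣ a).card : ℝ) ≤
          B.card / (4 * m) := by
        intro p hp
        have := hsmall p (hPp p hp) (hPm p hp)
        rw [le_div_iff₀ (by positivity)]
        linarith
      refine (sum_le_sum h6).trans ?_
      rw [sum_const, nsmul_eq_mul]
      have h7 : (P.card : ℝ) * (B.card / (4 * m)) ≤ m * (B.card / (4 * m)) :=
        mul_le_mul_of_nonneg_right hPc (by positivity)
      refine h7.trans (le_of_eq ?_)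
      field_simp
    linarith
  set B₁ : Finset ℤ := B \ R with hB₁
  have hB₁B : B₁ ⊆ B := sdiff_subset
  have hcard : (B.card : ℝ) / 2 ≤ B₁.card := by
    have h1 : B.card - R.card ≤ B₁.card := le_card_sdiff _ _
    have h2 : (B.card : ℝ) ≤ B₁.card + R.card := by
      have : B.card ≤ B₁.card + R.card := by omega
      exact_mod_cast this
    linarith
  have hB₁0 : (0 : ℝ) < B₁.card := by linarith
  have hnotR : ∀ a ∈ B₁, a ≠ 0 ∧ ∀ p ∈ P, ¬ ((p ^ J : ℕ) : ℤ) ∣ a := by
    intro a ha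
    rw [hB₁, mem_sdiff] at ha
    refine ⟨fun h => ha.2 (mem_union_right _ (mem_filter.2 ⟨ha.1, h⟩)), fun p hp hd => ?_⟩
    exact ha.2 (mem_union_left _ (mem_biUnion.2 ⟨p, hp, mem_filter.2 ⟨ha.1, hd⟩⟩))
  have hJlt : ∀ a ∈ B₁, ∀ p ∈ P, fa a p < J + 1 := by
    intro a ha p hp
    by_contra hc
    have ha0 : a ≠ 0 := (hnotR a ha).1
    exact (hnotR a ha).2 p hp ((le_fa_iff ha0 (hPp p hp) J).1 (by omega))
  refine ⟨B₁, hB₁B, card_pos.1 (by exact_mod_cast hB₁0), hcard, fun h => (hnotR 0 h).1 rfl, ?_, ?_⟩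
  · intro p hpp hpP
    have hpm : m < p := by
      by_contra hc
      exact hpP (mem_filter.2 ⟨mem_range.2 (by omega), hpp⟩)
    refine ⟨0, ?_⟩
    have h1 := hbig p hpp hpm
    have h2 : ((B₁.filter fun a => fa a p ≠ (0 : ℕ)).card : ℝ) ≤
        ((B.filter fun a : ℤ => (p : ℤ) ∣ a).card : ℝ) := by
      have : (B₁.filter fun a => fa a p ≠ (0 : ℕ)) ⊆
          B.filter fun a : ℤ => (p : ℤ) ∣ a := by
        intro a ha
        rw [mem_filter] at ha ⊢
        refine ⟨hB₁B ha.1, ?_⟩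
        have := (le_fa_iff (hnotR a ha.1).1 hpp 1).1 (Nat.one_le_iff_ne_zero.2 ha.2)
        simpa using this
      exact_mod_cast card_le_card this
    have h3 := mul_le_mul_of_nonneg_left h2 (show (0 : ℝ) ≤ Λ by positivity)
    have h4 : (0 : ℝ) ≤ Λ * ((B.filter fun a : ℤ => (p : ℤ) ∣ a).card : ℝ) := by positivity
    nlinarith
  · have h1 : B₁.image (part P) ⊆ ((P.pi fun _ => range (J + 1)).image
        fun g => ∏ p ∈ P.attach, (p : ℕ) ^ g p p.2) := by
      intro v hv
      obtain ⟨a, ha, rfl⟩ := mem_image.1 hv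
      refine mem_image.2 ⟨fun p _ => fa a p, ?_, ?_⟩
      · rw [Finset.mem_pi]
        intro p hp
        exact mem_range.2 (hJlt a ha p hp)
      · unfold part
        rw [← Finset.prod_attach P]
    have h2 := (card_le_card h1).trans card_image_le
    rw [card_pi, prod_const, card_range] at h2
    exact_mod_cast h2

/-- **An arbitrary set times a union of long runs of polynomial values.** -/
theorem arb_longRuns (d D : ℕ) (hd : 1 ≤ d) (hD : 1 ≤ D) (ε : ℝ) (hε : 0 < ε) (hε1 : ε ≤ 1) :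
    ∃ (L : ℕ) (c : ℝ), 1 ≤ L ∧ 0 < c ∧ ∀ A B : Finset ℤ, A.Nonempty → (0 : ℤ) ∉ A →
      B.Nonempty → LongRuns d D L B →
      c * ((A.card : ℝ) * B.card) ^ (1 - ε) ≤ (A * B).card := by
  have hdr : (1 : ℝ) ≤ d := by exact_mod_cast hd
  have hDr : (1 : ℝ) ≤ D := by exact_mod_cast hD
  set K : ℝ := (d : ℝ) ^ 2 * D with hKd
  have hK : 1 ≤ K := by rw [hKd]; nlinarith
  set Λ : ℝ := Real.exp (9 / ε) with hΛd
  have h9 : 9 ≤ 9 / ε := by
    rw [le_div_iff₀ hε]
    linarith
  have hΛ1 : 1 < Λ := Real.one_lt_exp_iff.2 (by linarith)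
  have hlog : Real.log Λ = 9 / ε := Real.log_exp _
  set m : ℕ := ⌈16 * K * Λ⌉₊ with hm
  have hm1 : 16 * K * Λ ≤ m := Nat.le_ceil _
  have hKΛ : 1 ≤ K * Λ := by nlinarith
  have hm0 : (0 : ℝ) < m := by nlinarith
  set w : ℕ := ⌈16 * m * K⌉₊ with hw
  have hw1 : 16 * m * K ≤ w := Nat.le_ceil _
  set L : ℕ := ⌈8 * m * K⌉₊ with hL
  have hL1 : 8 * m * K ≤ L := Nat.le_ceil _
  have hm4 : (4 : ℝ) ≤ m := by nlinarith
  have hmK : (4 : ℝ) ≤ m * K := by nlinarith
  have hL0 : (0 : ℝ) < L := by nlinarith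
  have hL1' : 1 ≤ L := by
    have : (0 : ℝ) < L := hL0
    exact_mod_cast this
  set P : Finset ℕ := (range (m + 1)).filter Nat.Prime with hP
  have hPp : ∀ p ∈ P, p.Prime := fun p hp => (mem_filter.1 hp).2
  set J : ℕ := d * w + 1 with hJ
  set C : ℝ := ((J : ℝ) + 1) ^ P.card with hC
  have hC1 : 1 ≤ C := one_le_pow₀ (by
    have : (0 : ℝ) ≤ J := Nat.cast_nonneg _
    linarith)
  refine ⟨L, 1 / (8 * C), hL1', by positivity, fun A B hA h0 hB hr => ?_⟩
  have hq := fun p hp w => longRuns_count d D L hd hL1' B hr (p := p) hp w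
  have hbig : ∀ p : ℕ, p.Prime → m < p →
      (4 * Λ) * ((B.filter fun a : ℤ => (p : ℤ) ∣ a).card : ℝ) ≤ B.card := by
    intro p hp hmp
    have h1 := hq p hp 0
    rw [mul_zero, zero_add, pow_one] at h1
    have hp0 : (0 : ℝ) < p := by exact_mod_cast hp.pos
    have hpm : (m : ℝ) ≤ p := by exact_mod_cast hmp.le
    have h2 : 2 / (p : ℝ) ≤ 2 / m := div_le_div_of_nonneg_left (by norm_num) hm0 hpm
    have h3 : 1 / (L : ℝ) ≤ 1 / m := by
      refine div_le_div_of_nonneg_left (by norm_num) hm0 ?_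
      nlinarith
    have h4 : K * (2 / (p : ℝ) + 1 / L) ≤ K * (3 / m) := by
      refine mul_le_mul_of_nonneg_left ?_ (by linarith)
      have : (3 : ℝ) / m = 2 / m + 1 / m := by ring
      linarith
    have h5 : (4 * Λ) * (K * (3 / m)) ≤ 1 := by
      have : (4 * Λ) * (K * (3 / (m : ℝ))) = 12 * (K * Λ) / m := by ring
      rw [this, div_le_one hm0]
      nlinarith
    have h6 : (0 : ℝ) ≤ (B.card : ℝ) := Nat.cast_nonneg _
    calc (4 * Λ) * ((B.filter fun a : ℤ => (p : ℤ) ∣ a).card : ℝ) ≤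
          (4 * Λ) * (K * (2 / (p : ℝ) + 1 / L) * B.card) :=
          mul_le_mul_of_nonneg_left h1 (by linarith)
      _ = ((4 * Λ) * (K * (2 / (p : ℝ) + 1 / L))) * B.card := by ring
      _ ≤ 1 * B.card := by
          refine mul_le_mul_of_nonneg_right ?_ h6
          exact (mul_le_mul_of_nonneg_left h4 (by linarith)).trans h5
      _ = B.card := one_mul _
  have hsmall : ∀ p : ℕ, p.Prime → p ≤ m →
      4 * (m : ℝ) * ((B.filter fun a : ℤ => ((p ^ J : ℕ) : ℤ) ∣ a).card : ℝ) ≤ B.card := by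
    intro p hp _
    have h1 := hq p hp w
    have hw2 : (w : ℝ) ≤ ((p ^ (w + 1) : ℕ) : ℝ) := by
      have h7 : w < p ^ w := Nat.lt_pow_self hp.one_lt
      have h8 : p ^ w ≤ p ^ (w + 1) := Nat.pow_le_pow_right hp.pos (by omega)
      exact_mod_cast (by omega : w ≤ p ^ (w + 1))
    have hw0 : (0 : ℝ) < 16 * m * K := by nlinarith
    have h2 : 2 / ((p ^ (w + 1) : ℕ) : ℝ) ≤ 2 / (16 * m * K) :=
      div_le_div_of_nonneg_left (by norm_num) hw0 (hw1.trans hw2)
    have h3 : 1 / (L : ℝ) ≤ 1 / (8 * m * K) :=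
      div_le_div_of_nonneg_left (by norm_num) (by linarith) hL1
    have h4 : 4 * m * (K * (2 / ((p ^ (w + 1) : ℕ) : ℝ) + 1 / L)) ≤
        4 * m * (K * (2 / (16 * m * K) + 1 / (8 * m * K))) := by
      refine mul_le_mul_of_nonneg_left ?_ (by linarith)
      refine mul_le_mul_of_nonneg_left ?_ (by linarith)
      linarith
    have h5 : 4 * m * (K * (2 / (16 * m * K) + 1 / (8 * m * K))) = 1 := by
      have hK0 : K ≠ 0 := by linarith
      field_simp
      norm_num
    have h6 : (0 : ℝ) ≤ (B.card : ℝ) := Nat.cast_nonneg _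
    calc 4 * (m : ℝ) * ((B.filter fun a : ℤ => ((p ^ J : ℕ) : ℤ) ∣ a).card : ℝ) ≤
          4 * m * (K * (2 / ((p ^ (w + 1) : ℕ) : ℝ) + 1 / L) * B.card) :=
          mul_le_mul_of_nonneg_left h1 (by linarith)
      _ = (4 * m * (K * (2 / ((p ^ (w + 1) : ℕ) : ℝ) + 1 / L))) * B.card := by ring
      _ ≤ 1 * B.card := by
          refine mul_le_mul_of_nonneg_right ?_ h6
          exact h4.trans h5.le
      _ = B.card := one_mul _
  obtain ⟨B₁, hB₁B, hB₁n, hB₁c, hB₁0, hB₁u, hB₁p⟩ := reduce1 hΛ1 m J B hB hbig hsmall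
  have main := oneSided Λ hΛ1 A B₁ hA hB₁n h0 hB₁0 P hPp hB₁u
  have hexp : 1 - 9 / Real.log Λ = 1 - ε := by
    rw [hlog]
    field_simp
  rw [hexp] at main
  have hA0 : (0 : ℝ) < A.card := by exact_mod_cast card_pos.2 hA
  have hBp : (0 : ℝ) < B.card := by exact_mod_cast card_pos.2 hB
  have hsub : ((A * B₁).card : ℝ) ≤ (A * B).card := by
    exact_mod_cast card_le_card (mul_subset_mul_left hB₁B)
  have g1 : ((A.card : ℝ) * B.card) ^ (1 - ε) ≤ 2 * ((A.card : ℝ) * B₁.card) ^ (1 - ε) := by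
    have e1 : ((A.card : ℝ) * B.card) ≤ 2 * ((A.card : ℝ) * B₁.card) := by
      have e0 := mul_le_mul_of_nonneg_left hB₁c hA0.le
      have e0' : (A.card : ℝ) * (B.card / 2) = (A.card * B.card) / 2 := by ring
      linarith only [e0, e0']
    have e2 := Real.rpow_le_rpow (mul_nonneg (Nat.cast_nonneg _) (Nat.cast_nonneg _)) e1
      (show 0 ≤ 1 - ε by linarith)
    rw [Real.mul_rpow (by norm_num) (mul_nonneg (Nat.cast_nonneg _) (Nat.cast_nonneg _))] at e2
    have e3 : (2 : ℝ) ^ (1 - ε) ≤ 2 := by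
      have := Real.rpow_le_rpow_of_exponent_le (show (1 : ℝ) ≤ 2 by norm_num)
        (show 1 - ε ≤ 1 by linarith)
      rwa [Real.rpow_one] at this
    exact e2.trans (mul_le_mul_of_nonneg_right e3 (Real.rpow_nonneg (mul_nonneg
      (Nat.cast_nonneg _) (Nat.cast_nonneg _)) _))
  have g2 : ((A.card : ℝ) * B₁.card) ^ (1 - ε) ≤ 4 * C * (A * B).card := by
    refine main.trans ?_
    exact mul_le_mul (mul_le_mul_of_nonneg_left hB₁p (by norm_num)) hsub (Nat.cast_nonneg _)
      (mul_nonneg (by norm_num) (le_trans zero_le_one hC1))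
  rw [one_div, ← div_eq_inv_mul, div_le_iff₀ (mul_pos (by norm_num) (lt_of_lt_of_le one_pos hC1))]
  linarith

end Pool.Agent.Q247.OS
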