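import Mathlib
import Pool.Agent.Q247.OS.Thm
import Pool.Agent.Y359.PE.PairDich

/-!
# An arbitrary set and a set with few popular primes: many sums or many products
-/

set_option autoImplicit false

namespace Pool.Agent.Q247.OS

open Finset Pool.Agent.Y359.PE
open scoped Classical Pointwise

/-- **An arbitrary set `A` and a set `B` with few popular primes.** -/
theorem arb_dich (ε : ℝ) (hε : 0 < ε) (hε1 : ε ≤ 1) :
    ∃ L δ c : ℝ, 1 ≤ L ∧ 0 < δ ∧ 0 < c ∧ ∀ (A B : Finset ℤ) (P : Finset ℕ),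
      (∃ a ∈ A, a ≠ 0) → B.Nonempty → (∀ p ∈ P, p.Prime) →
      (P.card : ℝ) * Real.log (Real.log B.card) ≤ δ * Real.log B.card →
      (∀ p : ℕ, p.Prime → p ∉ P →
        ∃ e : ℕ, L * ((B.filter fun b => b ≠ 0 ∧ fa b p ≠ e).card : ℝ) ≤ B.card) →
      c * ((A.card : ℝ) * B.card) ^ (1 - ε) ≤ max ((A + B).card : ℝ) ((A * B).card : ℝ) := by
  set γ : ℝ := ε / 8 with hγ
  have hγ0 : 0 < γ := by positivity
  have hγ8 : γ ≤ 1 / 8 := by rw [hγ]; linarith
  set δ : ℝ := ε / 64 with hδ
  have hδ0 : 0 < δ := by positivity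
  set ε' : ℝ := ε / 4 with hε'
  have hε'0 : 0 < ε' := by positivity
  have hε'1 : ε' ≤ 1 := by rw [hε']; linarith
  set C : ℝ := 4 * (1 : ℕ) / ε' * Real.exp (6 * (1 : ℕ) / ε') with hC
  set Λ : ℝ := Real.exp (9 / γ) with hΛ
  have hlogΛ : Real.log Λ = 9 / γ := by rw [hΛ, Real.log_exp]
  have h9γ : 9 ≤ 9 / γ := by
    rw [le_div_iff₀ hγ0]
    linarith
  have hΛ1 : 1 < Λ := by
    rw [hΛ]
    exact Real.one_lt_exp_iff.2 (by linarith)
  have hΛγ : 9 / Real.log Λ = γ := by
    rw [hlogΛ]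
    field_simp
  -- large sets
  have hlim : Filter.Tendsto (fun n : ℕ => Real.log (n : ℝ)) Filter.atTop Filter.atTop :=
    Real.tendsto_log_atTop.comp tendsto_natCast_atTop_atTop
  have hev : ∀ᶠ ℓ : ℝ in Filter.atTop, 2 ≤ ℓ ∧ 2 * C ≤ ℓ ∧ 1 ≤ Real.log ℓ ∧
      Real.log ℓ ≤ δ * ℓ := by
    refine (Filter.eventually_ge_atTop 2).and ((Filter.eventually_ge_atTop (2 * C)).and
      ((Real.tendsto_log_atTop.eventually_ge_atTop 1).and ?_))
    have h1 := Real.isLittleO_log_id_atTop.bound hδ0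
    filter_upwards [h1, Filter.eventually_ge_atTop 1] with x hx hx1
    rw [Real.norm_eq_abs, Real.norm_eq_abs, abs_of_nonneg (Real.log_nonneg hx1), id,
      abs_of_nonneg (by linarith)] at hx
    exact hx
  obtain ⟨N₀, hN₀⟩ := (hlim.eventually hev).exists_forall_of_atTop
  set N₁ : ℕ := max N₀ 3 with hN₁
  have hN₁3 : 3 ≤ N₁ := le_max_right _ _
  have hN₁r : (3 : ℝ) ≤ N₁ := by exact_mod_cast hN₁3
  refine ⟨3 * Λ, δ, γ / (12 * N₁), by linarith, hδ0, by positivity, ?_⟩
  intro A B P hA0 hB hP hPB hpop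
  obtain ⟨a₀, ha₀, ha₀0⟩ := hA0
  have hA : A.Nonempty := ⟨a₀, ha₀⟩
  set A' := A.erase 0 with hA'
  have hA'n : A'.Nonempty := ⟨a₀, mem_erase.2 ⟨ha₀0, ha₀⟩⟩
  have hA'0 : (0 : ℤ) ∉ A' := notMem_erase 0 A
  have hA'A : A' ⊆ A := erase_subset _ _
  have hA'c : (A.card : ℝ) ≤ 2 * A'.card := by
    have h3 : 1 ≤ A'.card := card_pos.2 hA'n
    have h4 : A.card ≤ A'.card + 1 := by
      have h5 : A.card - 1 ≤ A'.card := pred_card_le_card_erase
      omega
    have : A.card ≤ 2 * A'.card := by omega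
    exact_mod_cast this
  have hA1 : (1 : ℝ) ≤ A.card := by exact_mod_cast card_pos.2 hA
  have hB1 : (1 : ℝ) ≤ B.card := by exact_mod_cast card_pos.2 hB
  have hAB1 : (1 : ℝ) ≤ (A.card : ℝ) * B.card := by nlinarith only [hA1, hB1]
  have hpow1 : ((A.card : ℝ) * B.card) ^ (1 - ε) ≤ (A.card : ℝ) * B.card := by
    have := Real.rpow_le_rpow_of_exponent_le hAB1 (show 1 - ε ≤ 1 by linarith)
    rwa [Real.rpow_one] at this
  have hc0 : 0 ≤ γ / (12 * (N₁ : ℝ)) := by positivity
  have hcN : γ / (12 * (N₁ : ℝ)) * N₁ ≤ 1 := by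
    have : γ / (12 * (N₁ : ℝ)) * N₁ = γ / 12 := by field_simp
    rw [this]
    linarith
  have hAle : (A.card : ℝ) ≤ (A + B).card := by
    exact_mod_cast card_le_card_add_right hB
  rcases lt_or_ge B.card N₁ with hsB | hlB
  · have h3 : (B.card : ℝ) ≤ N₁ := by exact_mod_cast hsB.le
    refine le_trans ?_ (le_max_left _ _)
    calc γ / (12 * (N₁ : ℝ)) * ((A.card : ℝ) * B.card) ^ (1 - ε)
        ≤ γ / (12 * (N₁ : ℝ)) * ((A.card : ℝ) * B.card) := mul_le_mul_of_nonneg_left hpow1 hc0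
      _ ≤ γ / (12 * (N₁ : ℝ)) * ((A.card : ℝ) * N₁) := by gcongr
      _ = γ / (12 * (N₁ : ℝ)) * N₁ * A.card := by ring
      _ ≤ 1 * A.card := mul_le_mul_of_nonneg_right hcN (by positivity)
      _ ≤ (A + B).card := by rw [one_mul]; exact hAle
  -- the second set is large
  obtain ⟨hm2, hmC, hm1, hmδ⟩ := hN₀ B.card ((le_max_left _ _).trans hlB)
  set ℓ := Real.log (A.card : ℝ) with hℓ
  set m := Real.log (B.card : ℝ) with hm
  have hℓ0 : 0 ≤ ℓ := Real.log_nonneg hA1
  have hm0 : 0 ≤ m := by linarith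
  obtain ⟨R, hRB, hR0, hRs, hRc⟩ := sign_part B (hN₁3.trans hlB)
  have hRc' : (B.card : ℝ) ≤ 3 * R.card := by exact_mod_cast hRc
  have hRp : (0 : ℝ) < R.card := by linarith
  have hRn : R.Nonempty := card_pos.1 (by exact_mod_cast hRp)
  choose! e he using hpop
  set T := pr R \ P with hT
  have popR : ∀ p ∈ T, Λ * ((R.filter fun a => fa a p ≠ e p).card : ℝ) ≤ R.card := by
    intro p hp
    rw [hT, mem_sdiff] at hp
    have h1 := he p (prime_of_mem_pr hp.1) hp.2
    have h2 : ((R.filter fun a => fa a p ≠ e p).card : ℝ) ≤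
        ((B.filter fun b => b ≠ 0 ∧ fa b p ≠ e p).card : ℝ) := by
      have : (R.filter fun a => fa a p ≠ e p) ⊆ B.filter fun b => b ≠ 0 ∧ fa b p ≠ e p := by
        intro a ha
        rw [mem_filter] at ha ⊢
        exact ⟨hRB ha.1, fun h => hR0 (h ▸ ha.1), ha.2⟩
      exact_mod_cast card_le_card this
    have h3 := mul_le_mul_of_nonneg_left h2 (show 0 ≤ 3 * Λ by linarith)
    linarith
  have hTR : ∀ p, p ∉ P → p ∉ T → ∀ a ∈ R, fa a p = 0 := by
    intro p hp hpT a ha
    exact fa_eq_zero ha fun h => hpT (mem_sdiff.2 ⟨h, hp⟩)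
  have hcγ : γ / (12 * (N₁ : ℝ)) ≤ γ / 12 :=
    div_le_div_of_nonneg_left hγ0.le (by norm_num) (by linarith only [hN₁r])
  have hAB0 : (0 : ℝ) < (A.card : ℝ) * B.card := by linarith
  have hgoal : ∀ Z : ℝ, 0 < Z → (1 - ε) * (ℓ + m) + Real.log (γ / 12) ≤ Real.log Z →
      γ / (12 * (N₁ : ℝ)) * ((A.card : ℝ) * B.card) ^ (1 - ε) ≤ Z := by
    intro Z hZ h
    have h8 : γ / (12 * (N₁ : ℝ)) * ((A.card : ℝ) * B.card) ^ (1 - ε) ≤
        γ / 12 * ((A.card : ℝ) * B.card) ^ (1 - ε) :=
      mul_le_mul_of_nonneg_right hcγ (by positivity)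
    refine h8.trans ?_
    rw [← Real.log_le_log_iff (by positivity) hZ, Real.log_mul (by positivity)
      (Real.rpow_pos_of_pos hAB0 _).ne', Real.log_rpow hAB0, Real.log_mul (by linarith)
      (by linarith)]
    change Real.log (γ / 12) + (1 - ε) * (ℓ + m) ≤ _
    linarith
  have hg0 : Real.log (γ / 12) ≤ 0 :=
    Real.log_nonpos (by positivity) (by linarith only [hγ8])
  have hAB0' : (0 : ℝ) < (A + B).card := by exact_mod_cast card_pos.2 (hA.add hB)
  set g := Y359.PE.mk T (X e) with hg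
  set R2 := R.filter fun x => Real.exp (γ * m) ≤ (fc R g x : ℝ) with hR2
  rcases lt_or_ge (R2.card : ℝ) (γ * R.card) with hcR | hcR
  swap
  · -- many sums
    have hR2n : R2.Nonempty := card_pos.1 (by
      have : (0 : ℝ) < R2.card := lt_of_lt_of_le (by positivity) hcR
      exact_mod_cast this)
    have hlogR : Real.log R.card ≤ Real.log B.card := by
      refine Real.log_le_log hRp ?_
      exact_mod_cast card_le_card hRB
    have ls := long_side (C := C) hε'0 hε'1 hm2 hm1 hC hmC (show 2 * δ ≤ 1 by rw [hδ]; linarith)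
      (show 4 * δ ≤ γ by rw [hδ, hγ]; linarith) P hP (by
        have : (P.card : ℝ) * Real.log m ≤ δ * m := hPB
        linarith) R hR0 hRs hlogR T e hTR hR2n A hA
    have hsub : ((R + A).card : ℝ) ≤ (A + B).card := by
      rw [add_comm A B]
      exact_mod_cast card_le_card (add_subset_add_right hRB)
    have hsub2 := Real.log_le_log (by exact_mod_cast card_pos.2 (hRn.add hA)) hsub
    have hlow : m + Real.log (γ / 12) ≤ Real.log R2.card := by
      have hB0 : (0 : ℝ) < B.card := by linarith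
      rw [hm, ← Real.log_mul hB0.ne' (by positivity)]
      refine Real.log_le_log (by positivity) ?_
      have h3 : γ * (B.card / 3) ≤ γ * R.card :=
        mul_le_mul_of_nonneg_left (by linarith) hγ0.le
      nlinarith only [h3, hcR, mul_pos hγ0 hB0]
    refine (hgoal _ hAB0' ?_).trans (le_max_left _ _)
    have h1 : (1 - ε') * (Real.log R2.card + ℓ) ≤ 16 * δ * m + Real.log (A + B).card := by
      refine ls.trans ?_
      linarith
    have h3 : (1 - ε') * (m + Real.log (γ / 12) + ℓ) ≤ (1 - ε') * (Real.log R2.card + ℓ) :=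
      mul_le_mul_of_nonneg_left (by linarith) (by linarith)
    have h4 : 16 * δ * m = ε / 4 * m := by rw [hδ]; ring
    have h5 : (1 - ε') * (m + Real.log (γ / 12) + ℓ) =
        (ℓ + m) - ε / 4 * (ℓ + m) + Real.log (γ / 12) - ε / 4 * Real.log (γ / 12) := by
      rw [hε']; ring
    have h6 : ε / 4 * Real.log (γ / 12) ≤ 0 := mul_nonpos_of_nonneg_of_nonpos (by linarith) hg0
    have h7 : 0 ≤ ε * ℓ := mul_nonneg hε.le hℓ0
    have h8 : 0 ≤ ε * m := mul_nonneg hε.le hm0
    nlinarith only [h1, h3, h4, h5, h6, h7, h8]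
  · -- many products
    have hlog3 : Real.log 3 ≤ 1.1 := by
      rw [Real.log_le_iff_le_exp (by norm_num)]
      have h10 : (1.1 : ℝ) = 1 + 0.1 := by norm_num
      rw [h10, Real.exp_add]
      have h11 := Real.exp_one_gt_d9
      have h12 : (1.105 : ℝ) ≤ Real.exp 0.1 := by
        have := Real.quadratic_le_exp_of_nonneg (show (0 : ℝ) ≤ 0.1 by norm_num)
        norm_num at this ⊢
        linarith
      nlinarith only [h11, h12]
    have hlog30 : 0 ≤ Real.log 3 := Real.log_nonneg (by norm_num)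
    have hlog20 : 0 ≤ Real.log 2 := Real.log_nonneg (by norm_num)
    have sR : (1 - γ) * ((1 - γ) * m - Real.log 3) ≤ h R g := by
      have hB0 : (0 : ℝ) < B.card := by linarith
      have h12 : ((R.filter fun x => Real.exp (γ * m) ≤ (fc R g x : ℝ)).card : ℝ) +
          ((R.filter fun x => ¬ Real.exp (γ * m) ≤ (fc R g x : ℝ)).card : ℝ) = R.card := by
        exact_mod_cast card_filter_add_card_filter_not (s := R)
          (fun x => Real.exp (γ * m) ≤ (fc R g x : ℝ))
      have hh := h_ge_short R (R.filter fun x => ¬ Real.exp (γ * m) ≤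
        (fc R g x : ℝ)) hRn g (filter_subset _ _) (F := Real.exp (γ * m))
        (fun x hx => (not_le.1 (mem_filter.1 hx).2).le)
      rw [Real.log_exp] at hh
      have hq : 1 - γ ≤ ((R.filter fun x => ¬ Real.exp (γ * m) ≤
          (fc R g x : ℝ)).card : ℝ) / R.card := by
        rw [le_div_iff₀ hRp]
        linarith
      have hlogR : m - Real.log 3 ≤ Real.log R.card := by
        rw [hm, ← Real.log_div hB0.ne' (by norm_num)]
        exact Real.log_le_log (by positivity) (by linarith)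
      have hpos : 0 ≤ (1 - γ) * m - Real.log 3 := by nlinarith only [hγ8, hm2, hlog3]
      refine le_trans ?_ hh
      exact mul_le_mul hq (by linarith) hpos (by positivity)
    have main := prod_arb A' R hA'n hRn hA'0 hR0 T e hΛ1 (by rw [hlogΛ]; exact h9γ) popR
    rw [hΛγ, image_mul_eq'] at main
    have hSR0 : (0 : ℝ) < (A' * R).card := by exact_mod_cast card_pos.2 (hA'n.mul hRn)
    have hsub : ((A' * R).card : ℝ) ≤ (A * B).card := by
      exact_mod_cast card_le_card (mul_subset_mul hA'A hRB)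
    refine (hgoal _ hSR0 ?_).trans (hsub.trans (le_max_right _ _))
    refine le_trans ?_ main
    have hlA' : ℓ - Real.log 2 ≤ Real.log A'.card := by
      have hA'0' : (0 : ℝ) < A'.card := by exact_mod_cast card_pos.2 hA'n
      rw [hℓ, ← Real.log_div (by linarith) (by norm_num)]
      exact Real.log_le_log (by positivity) (by linarith)
    set HR := h R g with hHR
    have h1 : (1 - γ) * (ℓ - Real.log 2 - Real.log 2 +
        (1 - γ) * ((1 - γ) * m - Real.log 3)) ≤
        (1 - γ) * (Real.log A'.card - Real.log 2 + HR) :=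
      mul_le_mul_of_nonneg_left (by linarith) (by linarith)
    refine le_trans ?_ h1
    have h3 : 1 - 3 * γ ≤ (1 - γ) * (1 - γ) * (1 - γ) := by
      have h30 : 0 ≤ γ ^ 2 * (3 - γ) := mul_nonneg (sq_nonneg γ) (by linarith only [hγ8])
      nlinarith only [h30]
    have h4 : (1 - γ) * (1 - γ) ≤ 1 := by nlinarith only [hγ0, hγ8]
    have h5 := mul_le_mul_of_nonneg_right h3 hm0
    have h6 := mul_le_mul_of_nonneg_right h4 hlog30
    have h7 : 3 * γ * m ≤ ε * m :=
      mul_le_mul_of_nonneg_right (by rw [hγ]; linarith only [hε]) hm0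
    have h7' : γ * ℓ ≤ ε * ℓ :=
      mul_le_mul_of_nonneg_right (by rw [hγ]; linarith only [hε]) hℓ0
    have h8 : Real.log (γ / 12) ≤ -(2 * Real.log 2) - Real.log 3 := by
      have h9 : Real.log (1 / 12) = -(2 * Real.log 2) - Real.log 3 := by
        rw [one_div, Real.log_inv, show (12 : ℝ) = 2 ^ 2 * 3 by norm_num,
          Real.log_mul (by norm_num) (by norm_num), Real.log_pow]
        push_cast
        ring
      rw [← h9]
      exact Real.log_le_log (by positivity) (by linarith only [hγ8])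
    have h9 : (1 - γ) * (2 * Real.log 2) ≤ 2 * Real.log 2 := by
      nlinarith only [hγ0, hlog20]
    nlinarith only [h5, h6, h7, h7', h8, h9]

end Pool.Agent.Q247.OS
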