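import Mathlib
import Pool.Agent.Q247.OS.Thm

/-!
# All but boundedly many shifts
-/

set_option autoImplicit false

namespace Pool.Agent.Q247.OS

open Finset Pool.Agent.Y359.PE Pool.Agent.Q247.KP Polynomial
open scoped Classical Pointwise

/-- at most `d` of the shifts in `T` make `f (s + t)` divisible by `p ^ (d w + 1)` -/
lemma few_t {p : ℕ} (hp : p.Prime) (w d : ℕ) (f : ℤ[X]) (hf : f.IsPrimitive)
    (hd : f.natDegree ≤ d) (N : ℕ) (hN : 2 * N < p ^ (w + 1)) (T : Finset ℤ)
    (hT : ∀ t ∈ T, |t| ≤ N) (s : ℤ)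
    (hv : ∀ t ∈ T, ((p ^ (d * w + 1) : ℕ) : ℤ) ∣ f.eval (s + t)) : T.card ≤ d := by
  have h1 := classes hp w d f hf hd (T.image fun t => s + t) (by
    intro x hx
    obtain ⟨t, ht, rfl⟩ := mem_image.1 hx
    exact hv t ht)
  rw [image_image] at h1
  rw [card_image_of_injOn] at h1
  · exact h1
  · intro t ht t' ht' htt
    have h2 : (s + t) % ((p ^ (w + 1) : ℕ) : ℤ) = (s + t') % ((p ^ (w + 1) : ℕ) : ℤ) := htt
    have h3 : ((p ^ (w + 1) : ℕ) : ℤ) ∣ (s + t') - (s + t) := Int.modEq_iff_dvd.1 h2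
    have h4 : ((p ^ (w + 1) : ℕ) : ℤ) ∣ t' - t := by
      have : (s + t') - (s + t) = t' - t := by ring
      rwa [this] at h3
    have h5 := hT t ht
    have h6 := hT t' ht'
    have h7 : |t' - t| < ((p ^ (w + 1) : ℕ) : ℤ) := by
      have h8 : ((2 * N : ℕ) : ℤ) < ((p ^ (w + 1) : ℕ) : ℤ) := by exact_mod_cast hN
      rw [abs_le] at h5 h6
      rw [abs_lt]
      push_cast at h8 ⊢
      constructor <;> linarith
    have h8 := Int.eq_zero_of_abs_lt_dvd h4 h7
    linarith

lemma few_zero (d : ℕ) (f : ℤ[X]) (h1 : 1 ≤ f.natDegree) (hd : f.natDegree ≤ d) (T : Finset ℤ)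
    (s : ℤ) (hv : ∀ t ∈ T, f.eval (s + t) = 0) : T.card ≤ d := by
  have h2 := card_fiber f d h1 hd 0 (T.image fun t => s + t)
    (by
      intro x hx
      obtain ⟨t, ht, rfl⟩ := mem_image.1 hx
      exact hv t ht)
  rwa [card_image_of_injective _ (fun a b hab => by simpa using hab)] at h2

lemma card_pairs {α β : Type*} (S : Finset α) (T : Finset β) (p : α → β → Prop) (d : ℕ)
    (h : ∀ s ∈ S, ∀ Q : Finset β, Q ⊆ T → (∀ t ∈ Q, p s t) → Q.card ≤ d)
    (R : Finset (α × β)) (hR : ∀ b ∈ R, (b.1 ∈ S ∧ b.2 ∈ T) ∧ p b.1 b.2) :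
    R.card ≤ S.card * d := by
  have h1 : R.card ≤ ∑ s ∈ S, (R.filter fun b => b.1 = s).card := by
    rw [← card_eq_sum_card_fiberwise (f := fun b : α × β => b.1) (s := R) (t := S)]
    intro b hb
    exact (hR b hb).1.1
  refine h1.trans ((sum_le_card_nsmul _ _ d ?_).trans (le_of_eq (by rw [smul_eq_mul])))
  intro s hs
  have h2 := h s hs ((R.filter fun b => b.1 = s).image fun b => b.2) (by
    intro t ht
    obtain ⟨b, hb, rfl⟩ := mem_image.1 ht
    exact (hR b (mem_filter.1 hb).1).1.2) (by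
    intro t ht
    obtain ⟨b, hb, rfl⟩ := mem_image.1 ht
    rw [mem_filter] at hb
    have := (hR b hb.1).2
    rwa [hb.2] at this)
  rwa [card_image_of_injOn] at h2
  intro b hb b' hb' hbb
  exact Prod.ext ((mem_filter.1 hb).2.trans (mem_filter.1 hb').2.symm) hbb

lemma nz_le_pairs {α β M : Type*} [AddCommGroup M] (S : Finset α) (T : Finset β)
    (p : α → β → Prop) (d : ℕ)
    (h : ∀ s ∈ S, ∀ Q : Finset β, Q ⊆ T → (∀ t ∈ Q, p s t) → Q.card ≤ d)
    (B : Finset (α × β)) (y : α × β → M)
    (hR : ∀ b ∈ B, y b ≠ 0 → (b.1 ∈ S ∧ b.2 ∈ T) ∧ p b.1 b.2) :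
    nz B y ≤ S.card * d := by
  unfold nz
  exact card_pairs S T p d h _ (fun b hb => by
    rw [mem_filter] at hb
    exact hR b hb.1 hb.2)

/-- all the primes of `A` are used -/
lemma h_full (A : Finset ℤ) (hA : A.Nonempty) (h0 : (0 : ℤ) ∉ A) (U : Finset ℕ)
    (hU : pr A ⊆ U) :
    Real.log A.card - Real.log 2 ≤ h A (Y359.PE.mk U (X fun _ => 0)) := by
  have h1 := h_ge_short A A hA (Y359.PE.mk U (X fun _ => 0)) (Subset.refl _) (F := 2)
    (fun x hx => by
      have h2 := fc_le_two A h0 (fun _ => 0) hx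
      have h3 : fc A (Y359.PE.mk U (X fun _ => 0)) x ≤
          fc A (Y359.PE.mk (pr A) (X fun _ => 0)) x := by
        refine card_le_card fun y hy => ?_
        rw [mem_cl, mk_X_eq_iff] at hy ⊢
        exact ⟨hy.1, fun p hp => hy.2 p (hU hp)⟩
      exact_mod_cast h3.trans h2)
  have hN : (0 : ℝ) < A.card := by exact_mod_cast card_pos.2 hA
  rwa [div_self hN.ne', one_mul] at h1

/-- the valuations, rounded at the primes up to `N₂` -/
noncomputable def Yv (N₂ J : ℕ) (y : ℤ) (p : ℕ) : ℤ :=
  if p ≤ N₂ then ((J * (fa y p / J) : ℕ) : ℤ) else (fa y p : ℤ)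

lemma fa_eq_of_Yv {N₂ J : ℕ} {y z : ℤ} {p : ℕ} (h : Yv N₂ J y p = Yv N₂ J z p)
    (hm : p ≤ N₂ → fa y p % J = fa z p % J) : fa y p = fa z p := by
  unfold Yv at h
  split_ifs at h with hp
  · have h1 : J * (fa y p / J) = J * (fa z p / J) := by exact_mod_cast h
    have h2 := hm hp
    have h3 := Nat.div_add_mod (fa y p) J
    have h4 := Nat.div_add_mod (fa z p) J
    omega
  · exact_mod_cast h

/-- the main estimate for a set `T` of shifts -/
theorem shift_main {d : ℕ} (hd : 1 ≤ d) (N : ℕ) (f : ℤ[X]) (hf : f.IsPrimitive)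
    (hf1 : 1 ≤ f.natDegree) (hfd : f.natDegree ≤ d) (A S T : Finset ℤ) (hA : A.Nonempty)
    (h0 : (0 : ℤ) ∉ A) (hS : S.Nonempty) (hT : ∀ t ∈ T, |t| ≤ N) {L : ℝ}
    (hL : 1 < L) (hl : 9 ≤ Real.log L) (hLT : 2 * d * L ≤ T.card) :
    (1 - 9 / Real.log L) * (Real.log A.card + Real.log S.card) ≤
      Real.log ((T.biUnion fun t => A * S.image fun s => f.eval (s + t)).card) +
        Real.log (8 * d * ((d * (2 * N) + 1 : ℕ) : ℝ) ^
          (2 * ((range (2 * N + 1)).filter Nat.Prime).card)) := by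
  have hdr : (1 : ℝ) ≤ d := by exact_mod_cast hd
  have hL0 : 0 < L := by linarith
  have hl0 : 0 < Real.log L := by linarith
  set P : Finset ℕ := (range (2 * N + 1)).filter Nat.Prime with hP
  have hPp : ∀ p ∈ P, p.Prime := fun p hp => (mem_filter.1 hp).2
  have hPmem : ∀ p : ℕ, p.Prime → p ≤ 2 * N → p ∈ P := fun p hp hpN =>
    mem_filter.2 ⟨mem_range.2 (by omega), hp⟩
  have hPle : ∀ p ∈ P, p ≤ 2 * N := fun p hp => by
    have := mem_range.1 (mem_filter.1 hp).1
    omega
  set w : ℕ := 2 * N with hw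
  set J : ℕ := d * w + 1 with hJ
  have hJ1 : 1 ≤ J := by omega
  have hJr : (1 : ℝ) ≤ J := by exact_mod_cast hJ1
  set B : Finset (ℤ × ℤ) := (S ×ˢ T).filter fun b => f.eval (b.1 + b.2) ≠ 0 with hB
  set V : Finset ℤ := B.image fun b => f.eval (b.1 + b.2) with hV
  set U : Finset ℕ := (pr A ∪ pr V) ∪ P with hU
  have hUp : ∀ p ∈ U, p.Prime := by
    intro p hp
    rw [hU, mem_union, mem_union] at hp
    rcases hp with (hp | hp) | hp
    · exact prime_of_mem_pr hp
    · exact prime_of_mem_pr hp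
    · exact hPp p hp
  have hSc : (1 : ℝ) ≤ S.card := by exact_mod_cast card_pos.2 hS
  have hAc : (1 : ℝ) ≤ A.card := by exact_mod_cast card_pos.2 hA
  have hTc : (2 * d : ℝ) ≤ T.card := by nlinarith
  have hTc0 : (0 : ℝ) < T.card := by linarith
  -- the size of `B`
  have hBc : (S.card : ℝ) * T.card / 2 ≤ B.card := by
    have h1 : ((S ×ˢ T).filter fun b => f.eval (b.1 + b.2) = 0).card ≤ S.card * d :=
      card_pairs S T (fun s t => f.eval (s + t) = 0) d
        (fun s _ Q _ hQ => few_zero d f hf1 hfd Q s hQ) _ (fun b hb => by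
          rw [mem_filter, mem_product] at hb
          exact hb)
    have h2 : ((S ×ˢ T).filter fun b => f.eval (b.1 + b.2) = 0).card + B.card =
        S.card * T.card := by
      rw [← card_product]
      exact card_filter_add_card_filter_not _
    have h3 : (((S ×ˢ T).filter fun b => f.eval (b.1 + b.2) = 0).card : ℝ) + B.card =
        S.card * T.card := by exact_mod_cast h2
    have h4 : (((S ×ˢ T).filter fun b => f.eval (b.1 + b.2) = 0).card : ℝ) ≤ S.card * d := by
      exact_mod_cast h1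
    nlinarith
  have hBc0 : (0 : ℝ) < B.card := by
    have : 0 < (S.card : ℝ) * T.card / 2 := by positivity
    linarith
  have hBn : B.Nonempty := card_pos.1 (by exact_mod_cast hBc0)
  -- sparse coordinates
  have hY : ∀ p ∈ U, (nz B (fun b => Yv w J (f.eval (b.1 + b.2)) p) : ℝ) ≤
      1 / L * B.card := by
    intro p hp
    have hpp := hUp p hp
    have key : nz B (fun b => Yv w J (f.eval (b.1 + b.2)) p) ≤ S.card * d := by
      by_cases hpN : p ≤ w
      · refine nz_le_pairs S T (fun s t => ((p ^ (d * w + 1) : ℕ) : ℤ) ∣ f.eval (s + t)) d ?_ _ _ ?_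
        · intro s _ Q hQT hQ
          refine few_t hpp w d f hf hfd N ?_ Q (fun t ht => hT t (hQT ht)) s hQ
          calc 2 * N < 2 ^ (2 * N) := Nat.lt_two_pow_self
            _ ≤ 2 ^ (w + 1) := Nat.pow_le_pow_right (by norm_num) (by omega)
            _ ≤ p ^ (w + 1) := Nat.pow_le_pow_left hpp.two_le _
        · intro b hb hb2
          rw [hB, mem_filter, mem_product] at hb
          refine ⟨hb.1, ?_⟩
          rw [← le_fa_iff hb.2 hpp]
          by_contra hlt
          push Not at hlt
          apply hb2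
          show Yv w J (f.eval (b.1 + b.2)) p = 0
          unfold Yv
          rw [if_pos hpN, Nat.div_eq_of_lt hlt, mul_zero]
          rfl
      · refine nz_le_pairs S T (fun s t => ((p ^ (d * 0 + 1) : ℕ) : ℤ) ∣ f.eval (s + t)) d ?_ _ _ ?_
        · intro s _ Q hQT hQ
          refine few_t hpp 0 d f hf hfd N ?_ Q (fun t ht => hT t (hQT ht)) s hQ
          rw [zero_add, pow_one]
          omega
        · intro b hb hb2
          rw [hB, mem_filter, mem_product] at hb
          refine ⟨hb.1, ?_⟩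
          rw [← le_fa_iff hb.2 hpp]
          by_contra hlt
          apply hb2
          show Yv w J (f.eval (b.1 + b.2)) p = 0
          unfold Yv
          rw [if_neg hpN]
          have : fa (f.eval (b.1 + b.2)) p = 0 := by omega
          rw [this]
          rfl
    have key' : (nz B (fun b => Yv w J (f.eval (b.1 + b.2)) p) : ℝ) ≤ S.card * d := by
      exact_mod_cast key
    refine key'.trans ?_
    rw [one_div, ← div_eq_inv_mul, le_div_iff₀ hL0]
    nlinarith
  obtain ⟨q1, q2, q3⟩ := params9 hL hl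
  have main := two_arb A B hA hBn (X fun _ => 0) (fun b => Yv w J (f.eval (b.1 + b.2)))
    (τ := 1 / L) (θ := 1 / Real.sqrt L) q1 q2 U hY
  -- the entropies from below
  have hAl := h_full A hA h0 U (by
    intro p hp
    exact mem_union_left _ (mem_union_left _ hp))
  have hcl : ∀ b0 ∈ B, (fc B (Y359.PE.mk U fun b => Yv w J (f.eval (b.1 + b.2))) b0 : ℝ) ≤
      d * (T.card * (2 * (J : ℝ) ^ P.card)) := by
    intro b0 _
    set C := cl B (Y359.PE.mk U fun b => Yv w J (f.eval (b.1 + b.2))) b0 with hC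
    let g : ℤ × ℤ → ℤ × (Bool × ((p : ℕ) → p ∈ P → ℕ)) := fun b =>
      (b.2, (decide (0 < f.eval (b.1 + b.2)), fun p _ => fa (f.eval (b.1 + b.2)) p % J))
    have h1 : C.card ≤ d * (C.image g).card := by
      refine card_le_mul_card_image _ d ?_
      intro a ha
      obtain ⟨b1, hb1, hb1a⟩ := mem_image.1 ha
      set F := C.filter fun x => g x = a with hF
      have h2 : ∀ b ∈ F, b.2 = b1.2 ∧ f.eval (b.1 + b.2) = f.eval (b1.1 + b1.2) := by
        intro b hb
        rw [hF, mem_filter] at hb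
        have h3 : g b = g b1 := hb.2.trans hb1a.symm
        have h3' := Prod.mk.inj h3
        have h3'' := Prod.mk.inj h3'.2
        refine ⟨h3'.1, ?_⟩
        have hbC := hb.1
        rw [hC, mem_cl, mk_eq_iff] at hbC hb1
        have hbB := hbC.1
        have hb1B := hb1.1
        rw [hB, mem_filter] at hbB hb1B
        have hs : (0 < f.eval (b.1 + b.2) ↔ 0 < f.eval (b1.1 + b1.2)) := by
          have := h3''.1
          rwa [decide_eq_decide] at this
        refine eq_of_fa hbB.2 hb1B.2 hs ?_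
        intro p
        by_cases hpU : p ∈ U
        · refine fa_eq_of_Yv ((hbC.2 p hpU).trans (hb1.2 p hpU).symm) ?_
          intro hpw
          have hpP : p ∈ P := hPmem p (hUp p hpU) hpw
          exact congrFun (congrFun h3''.2 p) hpP
        · have hpV : p ∉ pr V := fun h => hpU (mem_union_left _ (mem_union_right _ h))
          rw [fa_eq_zero (A := V) (mem_image_of_mem _ hbC.1) hpV,
            fa_eq_zero (A := V) (mem_image_of_mem _ hb1.1) hpV]
      have h4 := card_fiber f d hf1 hfd (f.eval (b1.1 + b1.2)) (F.image fun b => b.1 + b.2) (by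
        intro x hx
        obtain ⟨b, hb, rfl⟩ := mem_image.1 hx
        exact (h2 b hb).2)
      rwa [card_image_of_injOn] at h4
      intro b hb b' hb' hbb
      have e1 := (h2 b hb).1
      have e2 := (h2 b' hb').1
      have e3 : b.1 + b.2 = b'.1 + b'.2 := hbb
      refine Prod.ext ?_ (e1.trans e2.symm)
      rw [e1, e2] at e3
      linarith
    have h5 : (C.image g).card ≤ T.card * (2 * J ^ P.card) := by
      have h6 : C.image g ⊆ T ×ˢ ((univ : Finset Bool) ×ˢ (P.pi fun _ => range J)) := by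
        intro a ha
        obtain ⟨b, hb, rfl⟩ := mem_image.1 ha
        rw [hC, mem_cl, hB, mem_filter, mem_product] at hb
        rw [mem_product, mem_product]
        refine ⟨hb.1.1.2, mem_univ _, ?_⟩
        rw [Finset.mem_pi]
        intro p _
        exact mem_range.2 (Nat.mod_lt _ (by omega))
      refine (card_le_card h6).trans (le_of_eq ?_)
      rw [card_product, card_product, card_univ, Fintype.card_bool, card_pi, prod_const,
        card_range]
    have h7 : C.card ≤ d * (T.card * (2 * J ^ P.card)) := h1.trans (Nat.mul_le_mul_left _ h5)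
    exact_mod_cast h7
  have hBl := h_ge_short B B hBn (Y359.PE.mk U fun b => Yv w J (f.eval (b.1 + b.2)))
    (Subset.refl _) (F := d * (T.card * (2 * (J : ℝ) ^ P.card))) hcl
  rw [div_self hBc0.ne', one_mul] at hBl
  have hJP : (0 : ℝ) < (J : ℝ) ^ P.card := pow_pos (by linarith) _
  have hJP1 : (1 : ℝ) ≤ (J : ℝ) ^ P.card := one_le_pow₀ hJr
  have hBl' : Real.log S.card - Real.log (4 * d * (J : ℝ) ^ P.card) ≤
      h B (Y359.PE.mk U fun b => Yv w J (f.eval (b.1 + b.2))) := by
    refine le_trans ?_ hBl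
    rw [← Real.log_div (by linarith) (by positivity), ← Real.log_div hBc0.ne' (by positivity)]
    refine Real.log_le_log (by positivity) ?_
    rw [div_le_div_iff₀ (by positivity) (by positivity)]
    have e1 : (S.card : ℝ) * (d * (T.card * (2 * (J : ℝ) ^ P.card))) =
        (S.card * T.card / 2) * (4 * d * (J : ℝ) ^ P.card) := by ring
    rw [e1]
    exact mul_le_mul_of_nonneg_right hBc (by positivity)
  -- the image
  set W := T.biUnion fun t => A * S.image fun s => f.eval (s + t) with hW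
  have himg : ((A ×ˢ B).image (Y359.PE.mk U
      (fun s : ℤ × (ℤ × ℤ) => X (fun _ => 0) s.1 + Yv w J (f.eval (s.2.1 + s.2.2))))).card ≤
      W.card * J ^ P.card := by
    set Φ : ℤ × ((p : ℕ) → p ∈ P → ℕ) → ℕ → ℤ := fun m p =>
      if p ∈ U then (fa m.1 p : ℤ) - (if hp : p ∈ P then (m.2 p hp : ℤ) else 0) else 0 with hΦ
    have h1 : ((A ×ˢ B).image (Y359.PE.mk U
      (fun s : ℤ × (ℤ × ℤ) => X (fun _ => 0) s.1 + Yv w J (f.eval (s.2.1 + s.2.2))))) ⊆
        (W ×ˢ (P.pi fun _ => range J)).image Φ := by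
      intro v hv
      obtain ⟨⟨x, b⟩, hxb, rfl⟩ := mem_image.1 hv
      rw [mem_product] at hxb
      have hbB := hxb.2
      rw [hB, mem_filter, mem_product] at hbB
      rw [mem_image]
      refine ⟨(x * f.eval (b.1 + b.2), fun p _ => fa (f.eval (b.1 + b.2)) p % J), ?_, ?_⟩
      · rw [mem_product]
        refine ⟨?_, ?_⟩
        · rw [hW, mem_biUnion]
          exact ⟨b.2, hbB.1.2, mul_mem_mul hxb.1 (mem_image_of_mem _ hbB.1.1)⟩
        · rw [Finset.mem_pi]
          intro p _
          exact mem_range.2 (Nat.mod_lt _ (by omega))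
      · funext p
        simp only [hΦ]
        unfold Y359.PE.mk
        by_cases hpU : p ∈ U
        · rw [if_pos hpU, if_pos hpU]
          rw [fa_mul (fun h => h0 (h ▸ hxb.1)) hbB.2]
          show _ = X (fun _ => 0) x p + Yv w J (f.eval (b.1 + b.2)) p
          unfold Y359.PE.X Yv
          by_cases hpP : p ∈ P
          · rw [dif_pos hpP, if_pos (hPle p hpP)]
            have h3 := Nat.div_add_mod (fa (f.eval (b.1 + b.2)) p) J
            have h4 : ((fa (f.eval (b.1 + b.2)) p : ℕ) : ℤ) =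
                ((J * (fa (f.eval (b.1 + b.2)) p / J) : ℕ) : ℤ) +
                  ((fa (f.eval (b.1 + b.2)) p % J : ℕ) : ℤ) := by
              exact_mod_cast h3.symm
            push_cast
            push_cast at h4
            linarith
          · rw [dif_neg hpP, if_neg (fun hle => hpP (hPmem p (hUp p hpU) hle))]
            push_cast
            ring
        · rw [if_neg hpU, if_neg hpU]
    refine (card_le_card h1).trans (card_image_le.trans (le_of_eq ?_))
    rw [card_product, card_pi, prod_const, card_range]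
  have hWn : (0 : ℝ) < W.card := by
    obtain ⟨b, hb⟩ := hBn
    obtain ⟨a, ha⟩ := hA
    rw [hB, mem_filter, mem_product] at hb
    have : (a * f.eval (b.1 + b.2)) ∈ W := by
      rw [hW, mem_biUnion]
      exact ⟨b.2, hb.1.2, mul_mem_mul ha (mem_image_of_mem _ hb.1.1)⟩
    exact_mod_cast card_pos.2 ⟨_, this⟩
  have hup : h (A ×ˢ B) (Y359.PE.mk U
      (fun s : ℤ × (ℤ × ℤ) => X (fun _ => 0) s.1 + Yv w J (f.eval (s.2.1 + s.2.2)))) ≤
      Real.log W.card + Real.log ((J : ℝ) ^ P.card) := by
    refine (h_le_log (hA.product hBn) _).trans ?_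
    rw [← Real.log_mul hWn.ne' hJP.ne']
    refine Real.log_le_log ?_ ?_
    · exact_mod_cast card_pos.2 ((hA.product hBn).image _)
    · exact_mod_cast himg
  have hE0 : 0 ≤ 1 - 9 / Real.log L := by
    have : 9 / Real.log L ≤ 1 := by
      rw [div_le_one hl0]
      exact hl
    linarith
  have hE1 : 1 - 9 / Real.log L ≤ 1 := by
    have : 0 ≤ 9 / Real.log L := by positivity
    linarith
  set HA := h A (Y359.PE.mk U (X fun _ => 0)) with hHA
  set HB := h B (Y359.PE.mk U fun b => Yv w J (f.eval (b.1 + b.2))) with hHB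
  have hHA0 : 0 ≤ HA := h_nonneg _ _
  have hHB0 : 0 ≤ HB := h_nonneg _ _
  have s1 : (1 - 9 / Real.log L) * (HA + HB) ≤ Real.log W.card +
      Real.log ((J : ℝ) ^ P.card) := by
    refine le_trans ?_ (main.trans hup)
    exact mul_le_mul_of_nonneg_right (by linarith) (by linarith)
  have s2 := mul_le_mul_of_nonneg_left (show Real.log A.card + Real.log S.card -
    (Real.log 2 + Real.log (4 * d * (J : ℝ) ^ P.card)) ≤ HA + HB by linarith) hE0
  have hl2 : 0 ≤ Real.log 2 := Real.log_nonneg (by norm_num)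
  have hl4 : 0 ≤ Real.log (4 * d * (J : ℝ) ^ P.card) := by
    refine Real.log_nonneg ?_
    nlinarith
  have s3 : (1 - 9 / Real.log L) * (Real.log 2 + Real.log (4 * d * (J : ℝ) ^ P.card)) ≤
      Real.log 2 + Real.log (4 * d * (J : ℝ) ^ P.card) :=
    mul_le_of_le_one_left (by linarith) hE1
  have s4 : Real.log (8 * d * ((J : ℕ) : ℝ) ^ (2 * P.card)) =
      Real.log 2 + Real.log (4 * d * (J : ℝ) ^ P.card) + Real.log ((J : ℝ) ^ P.card) := by
    rw [← Real.log_mul (by norm_num) (by positivity), ← Real.log_mul (by positivity) hJP.ne']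
    congr 1
    rw [two_mul P.card, pow_add]
    ring
  rw [s4]
  nlinarith only [s1, s2, s3]

end Pool.Agent.Q247.OS
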