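import Mathlib
import Pool.Agent.Q247.OS.Shift

/-!
# All but boundedly many shifts: final form
-/

set_option autoImplicit false

namespace Pool.Agent.Q247.OS

open Finset Pool.Agent.Y359.PE Pool.Agent.Q247.KP Polynomial
open scoped Pointwise

theorem shifts_aux (d : ℕ) (hd : 1 ≤ d) (ε : ℝ) (hε : 0 < ε) (hε1 : ε ≤ 1) (N : ℕ) :
    ∃ c : ℝ, 0 < c ∧ c ≤ 1 ∧ ∀ (f : ℤ[X]) (A S : Finset ℤ), f.IsPrimitive → 1 ≤ f.natDegree →
      f.natDegree ≤ d → A.Nonempty → (0 : ℤ) ∉ A → S.Nonempty →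
      (((Icc (-(N : ℤ)) N).filter fun t =>
        ((A * S.image fun s => f.eval (s + t)).card : ℝ) <
          c * ((A.card : ℝ) * S.card) ^ (1 - ε)).card : ℝ) ≤ 2 * d * Real.exp (9 / ε) := by
  have hdr : (1 : ℝ) ≤ d := by exact_mod_cast hd
  set m : ℕ := ⌈2 * (d : ℝ) * Real.exp (9 / ε)⌉₊ with hm
  have hm1 : 2 * (d : ℝ) * Real.exp (9 / ε) ≤ m := Nat.le_ceil _
  have hexp0 : 0 < Real.exp (9 / ε) := Real.exp_pos _
  have h9 : 9 ≤ 9 / ε := by
    rw [le_div_iff₀ hε]
    linarith
  have hL1 : 1 < Real.exp (9 / ε) := Real.one_lt_exp_iff.2 (by linarith)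
  have hm2 : (1 : ℝ) ≤ m := by nlinarith
  set C : ℝ := 8 * d * ((d * (2 * N) + 1 : ℕ) : ℝ) ^
          (2 * ((range (2 * N + 1)).filter Nat.Prime).card) with hC
  have hC1 : 1 ≤ C := by
    have h1 : (1 : ℝ) ≤ ((d * (2 * N) + 1 : ℕ) : ℝ) ^
          (2 * ((range (2 * N + 1)).filter Nat.Prime).card) := by
      refine one_le_pow₀ ?_
      exact_mod_cast Nat.le_add_left 1 _
    rw [hC]
    nlinarith
  refine ⟨1 / (m * C), by positivity, ?_, ?_⟩
  · rw [div_le_one (by positivity)]
    nlinarith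
  intro f A S hf hf1 hfd hA h0 hS
  by_contra hcon
  push Not at hcon
  set Bad := (Icc (-(N : ℤ)) N).filter fun t =>
        ((A * S.image fun s => f.eval (s + t)).card : ℝ) <
          1 / (m * C) * ((A.card : ℝ) * S.card) ^ (1 - ε) with hBad
  have hmB : m ≤ Bad.card := Nat.ceil_le.2 hcon.le
  obtain ⟨T, hTB, hTc⟩ := exists_subset_card_eq hmB
  have hT : ∀ t ∈ T, |t| ≤ N := by
    intro t ht
    have := mem_Icc.1 (mem_filter.1 (hTB ht)).1
    exact abs_le.2 this
  have main := shift_main hd N f hf hf1 hfd A S T hA h0 hS hT hL1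
    (by rw [Real.log_exp]; exact h9) (by rw [hTc]; exact hm1)
  rw [Real.log_exp] at main
  have he : 9 / (9 / ε) = ε := by field_simp
  rw [he, ← hC] at main
  have hAc : (0 : ℝ) < A.card := by exact_mod_cast card_pos.2 hA
  have hSc : (0 : ℝ) < S.card := by exact_mod_cast card_pos.2 hS
  have hAS : (0 : ℝ) < (A.card : ℝ) * S.card := mul_pos hAc hSc
  set W := T.biUnion fun t => A * S.image fun s => f.eval (s + t) with hW
  have hTn : T.Nonempty := by
    rw [← card_pos, hTc]
    exact_mod_cast (by linarith : (0 : ℝ) < m)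
  have hWn : (0 : ℝ) < W.card := by
    obtain ⟨t, ht⟩ := hTn
    have h1 : (A * S.image fun s => f.eval (s + t)).Nonempty := hA.mul (hS.image _)
    obtain ⟨x, hx⟩ := h1
    exact_mod_cast card_pos.2 ⟨x, mem_biUnion.2 ⟨t, ht, hx⟩⟩
  have h1 : ((A.card : ℝ) * S.card) ^ (1 - ε) ≤ W.card * C := by
    rw [← Real.log_le_log_iff (Real.rpow_pos_of_pos hAS _) (by positivity), Real.log_rpow hAS,
      Real.log_mul hAc.ne' hSc.ne', Real.log_mul hWn.ne' (by positivity)]
    exact main
  have h2 : (W.card : ℝ) < m * (1 / (m * C) * ((A.card : ℝ) * S.card) ^ (1 - ε)) := by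
    have h3 : (W.card : ℝ) ≤ ∑ t ∈ T, ((A * S.image fun s => f.eval (s + t)).card : ℝ) := by
      exact_mod_cast card_biUnion_le
    refine h3.trans_lt ?_
    have h4 : ∑ t ∈ T, ((A * S.image fun s => f.eval (s + t)).card : ℝ) <
        ∑ t ∈ T, 1 / (m * C) * ((A.card : ℝ) * S.card) ^ (1 - ε) :=
      sum_lt_sum_of_nonempty hTn fun t ht => (mem_filter.1 (hTB ht)).2
    rwa [sum_const, nsmul_eq_mul, hTc] at h4
  have h5 : m * (1 / (m * C) * ((A.card : ℝ) * S.card) ^ (1 - ε)) * C =
      ((A.card : ℝ) * S.card) ^ (1 - ε) := by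
    have : (m : ℝ) ≠ 0 := by linarith
    field_simp
  have h6 := mul_lt_mul_of_pos_right h2 (by linarith : 0 < C)
  linarith

/-- **All but at most `2 d exp (9 / ε)` shifts.** -/
theorem shifts_all (d : ℕ) (hd : 1 ≤ d) (ε : ℝ) (hε : 0 < ε) (hε1 : ε ≤ 1) (N : ℕ) :
    ∃ c : ℝ, 0 < c ∧ c ≤ 1 ∧ ∀ (f : ℤ[X]) (A S : Finset ℤ), f.IsPrimitive → 1 ≤ f.natDegree →
      f.natDegree ≤ d → (∃ a ∈ A, a ≠ 0) → S.Nonempty →
      (((Icc (-(N : ℤ)) N).filter fun t =>
        ((A * S.image fun s => f.eval (s + t)).card : ℝ) <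
          c * ((A.card : ℝ) * S.card) ^ (1 - ε)).card : ℝ) ≤ 2 * d * Real.exp (9 / ε) := by
  obtain ⟨c, hc, hc1, h⟩ := shifts_aux d hd ε hε hε1 N
  refine ⟨c / 2, by positivity, by linarith, fun f A S hf hf1 hfd hA hS => ?_⟩
  obtain ⟨a, ha, ha0⟩ := hA
  have hA' : (A.erase 0).Nonempty := ⟨a, mem_erase.2 ⟨ha0, ha⟩⟩
  refine le_trans ?_ (h f (A.erase 0) S hf hf1 hfd hA' (notMem_erase 0 A) hS)
  refine Nat.cast_le.2 (card_le_card ?_)
  intro t ht
  rw [mem_filter] at ht ⊢
  refine ⟨ht.1, ?_⟩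
  have h1 : (((A.erase 0) * S.image fun s => f.eval (s + t)).card : ℝ) ≤
      (A * S.image fun s => f.eval (s + t)).card := by
    exact_mod_cast card_le_card (mul_subset_mul_right (erase_subset _ _))
  have h2 : (A.card : ℝ) ≤ 2 * (A.erase 0).card := by
    have h3 : 1 ≤ (A.erase 0).card := card_pos.2 hA'
    have h4 : A.card ≤ (A.erase 0).card + 1 := by
      have := pred_card_le_card_erase (s := A) (a := 0)
      omega
    have : A.card ≤ 2 * (A.erase 0).card := by omega
    exact_mod_cast this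
  have hSc : (0 : ℝ) < S.card := by exact_mod_cast card_pos.2 hS
  have h5 : ((A.card : ℝ) * S.card) ^ (1 - ε) ≤
      2 * (((A.erase 0).card : ℝ) * S.card) ^ (1 - ε) := by
    have e1 : (A.card : ℝ) * S.card ≤ 2 * (((A.erase 0).card : ℝ) * S.card) := by nlinarith
    have e0 : (0 : ℝ) ≤ ((A.erase 0).card : ℝ) * S.card := by positivity
    have e2 := Real.rpow_le_rpow (by positivity) e1 (show 0 ≤ 1 - ε by linarith)
    rw [Real.mul_rpow (by norm_num) e0] at e2
    have e3 : (2 : ℝ) ^ (1 - ε) ≤ 2 := by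
      have := Real.rpow_le_rpow_of_exponent_le (show (1 : ℝ) ≤ 2 by norm_num)
        (show 1 - ε ≤ 1 by linarith)
      rwa [Real.rpow_one] at this
    exact e2.trans (mul_le_mul_of_nonneg_right e3 (Real.rpow_nonneg e0 _))
  have h6 := mul_le_mul_of_nonneg_left h5 (show 0 ≤ c / 2 by positivity)
  have h7 := ht.2
  calc (((A.erase 0) * S.image fun s => f.eval (s + t)).card : ℝ) ≤
        (A * S.image fun s => f.eval (s + t)).card := h1
    _ < c / 2 * ((A.card : ℝ) * S.card) ^ (1 - ε) := h7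
    _ ≤ c / 2 * (2 * (((A.erase 0).card : ℝ) * S.card) ^ (1 - ε)) := h6
    _ = c * (((A.erase 0).card : ℝ) * S.card) ^ (1 - ε) := by ring

/-- **The sets `A ∪ (A + t)`.** -/
theorem double_sets (ε : ℝ) (hε : 0 < ε) (hε1 : ε ≤ 1) (N : ℕ) :
    ∃ c : ℝ, 0 < c ∧ ∀ A : Finset ℤ, A.Nonempty →
      (((Icc (-(N : ℤ)) N).filter fun t =>
        (((A ∪ A.image fun a => a + t) * (A ∪ A.image fun a => a + t)).card : ℝ) <
          c * ((A ∪ A.image fun a => a + t).card : ℝ) ^ (2 - ε)).card : ℝ) ≤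
        2 * Real.exp (18 / ε) := by
  obtain ⟨c, hc, hc1, h⟩ := shifts_all 1 le_rfl (ε / 2) (by linarith) (by linarith) N
  refine ⟨c / 4, by positivity, fun A hA => ?_⟩
  by_cases hA0 : ∃ a ∈ A, a ≠ 0
  · have h1 := h X A A (monic_X.isPrimitive) (by rw [natDegree_X]) (by rw [natDegree_X])
      hA0 hA
    have he : 9 / (ε / 2) = 18 / ε := by
      field_simp
      norm_num
    rw [he, Nat.cast_one, mul_one] at h1
    refine le_trans ?_ h1
    refine Nat.cast_le.2 (card_le_card ?_)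
    intro t ht
    rw [mem_filter] at ht ⊢
    refine ⟨ht.1, ?_⟩
    set B := A ∪ A.image fun a => a + t with hB
    have e0 : (A.image fun s => eval (s + t) (X : ℤ[X])) = A.image fun a => a + t := by
      refine image_congr fun s _ => ?_
      show eval (s + t) (X : ℤ[X]) = s + t
      rw [eval_X]
    rw [e0]
    have e1 : ((A * A.image fun a => a + t).card : ℝ) ≤ (B * B).card := by
      exact_mod_cast card_le_card (mul_subset_mul subset_union_left subset_union_right)
    have e2 : (B.card : ℝ) ≤ 2 * A.card := by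
      have : B.card ≤ 2 * A.card := by
        refine (card_union_le _ _).trans ?_
        have := card_image_le (s := A) (f := fun a => a + t)
        omega
      exact_mod_cast this
    have hAc : (0 : ℝ) < A.card := by exact_mod_cast card_pos.2 hA
    have e3 : (B.card : ℝ) ^ (2 - ε) ≤ 4 * (A.card : ℝ) ^ (2 - ε) := by
      have g1 := Real.rpow_le_rpow (by positivity) e2 (show 0 ≤ 2 - ε by linarith)
      rw [Real.mul_rpow (by norm_num) hAc.le] at g1
      have g2 : (2 : ℝ) ^ (2 - ε) ≤ 4 := by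
        have := Real.rpow_le_rpow_of_exponent_le (show (1 : ℝ) ≤ 2 by norm_num)
          (show 2 - ε ≤ 2 by linarith)
        have g3 : (2 : ℝ) ^ (2 : ℝ) = 4 := by norm_num
        rwa [g3] at this
      exact g1.trans (mul_le_mul_of_nonneg_right g2 (Real.rpow_nonneg hAc.le _))
    have e4 : ((A.card : ℝ) * A.card) ^ (1 - ε / 2) = (A.card : ℝ) ^ (2 - ε) := by
      rw [← pow_two, ← Real.rpow_natCast, ← Real.rpow_mul hAc.le]
      congr 1
      push_cast
      ring
    rw [e4]
    have e5 := mul_le_mul_of_nonneg_left e3 (show 0 ≤ c / 4 by positivity)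
    have e6 := ht.2
    calc ((A * A.image fun a => a + t).card : ℝ) ≤ (B * B).card := e1
      _ < c / 4 * (B.card : ℝ) ^ (2 - ε) := e6
      _ ≤ c / 4 * (4 * (A.card : ℝ) ^ (2 - ε)) := e5
      _ = c * (A.card : ℝ) ^ (2 - ε) := by ring
  · push Not at hA0
    have hAe : A = {0} := by
      obtain ⟨a, ha⟩ := hA
      have := hA0 a ha
      subst this
      refine eq_singleton_iff_unique_mem.2 ⟨ha, fun x hx => hA0 x hx⟩
    have hempty : ((Icc (-(N : ℤ)) N).filter fun t =>
        (((A ∪ A.image fun a => a + t) * (A ∪ A.image fun a => a + t)).card : ℝ) <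
          c / 4 * ((A ∪ A.image fun a => a + t).card : ℝ) ^ (2 - ε)) = ∅ := by
      rw [filter_eq_empty_iff]
      intro t _
      push Not
      set B := A ∪ A.image fun a => a + t with hB
      have hBn : B.Nonempty := hA.mono subset_union_left
      have e1 : (1 : ℝ) ≤ (B * B).card := by exact_mod_cast card_pos.2 (hBn.mul hBn)
      have e2 : (B.card : ℝ) ≤ 2 := by
        have : B.card ≤ 2 := by
          refine (card_union_le _ _).trans ?_
          have := card_image_le (s := A) (f := fun a => a + t)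
          rw [hAe, card_singleton] at this ⊢
          omega
        exact_mod_cast this
      have e3 : (B.card : ℝ) ^ (2 - ε) ≤ 4 := by
        have g1 := Real.rpow_le_rpow (Nat.cast_nonneg _) e2 (show 0 ≤ 2 - ε by linarith)
        have := Real.rpow_le_rpow_of_exponent_le (show (1 : ℝ) ≤ 2 by norm_num)
          (show 2 - ε ≤ 2 by linarith)
        have g3 : (2 : ℝ) ^ (2 : ℝ) = 4 := by norm_num
        rw [g3] at this
        linarith
      have e4 := mul_le_mul_of_nonneg_left e3 (show 0 ≤ c / 4 by positivity)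
      linarith
    rw [hempty, card_empty]
    push_cast
    positivity

end Pool.Agent.Q247.OS
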